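import Pool.Agent.H716BM.Stmts

set_option autoImplicit false

open MeasureTheory Filter Topology

namespace H716BM

lemma continuous_det_E {n k : ℕ} :
    Continuous (fun z : I n k → (Fin n → ℂ) => ‖Matrix.det (E z)‖) := by
  apply Continuous.norm
  apply Continuous.matrix_det
  apply continuous_matrix
  intro a b
  simp only [E, Matrix.of_apply]
  fun_prop

lemma exists_max_det {n k : ℕ} {K : Set (Fin n → ℂ)} (hK : IsCompact K) (hne : K.Nonempty) :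
    ∃ ξ : I n k → (Fin n → ℂ), (∀ a, ξ a ∈ K) ∧
      (∀ z : I n k → (Fin n → ℂ), (∀ a, z a ∈ K) → ‖Matrix.det (E z)‖ ≤ ‖Matrix.det (E ξ)‖) ∧
      VV n k K = ‖Matrix.det (E ξ)‖ := by
  have hc : IsCompact (Set.pi Set.univ (fun _ : I n k => K)) := isCompact_univ_pi (fun _ => hK)
  obtain ⟨x0, hx0⟩ := hne
  obtain ⟨ξ, hξ, hmax⟩ := hc.exists_isMaxOn ⟨fun _ => x0, fun _ _ => hx0⟩
    (continuous_det_E (n := n) (k := k)).continuousOn
  have hm : ∀ z : I n k → (Fin n → ℂ), (∀ a, z a ∈ K) → ‖Matrix.det (E z)‖ ≤ ‖Matrix.det (E ξ)‖ :=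
    fun z hz => hmax (fun a _ => hz a)
  refine ⟨ξ, fun a => hξ a (Set.mem_univ a), hm, ?_⟩
  unfold VV
  apply le_antisymm
  · apply csSup_le
    · exact ⟨_, ξ, fun a => hξ a (Set.mem_univ a), rfl⟩
    · rintro s ⟨z, hz, rfl⟩
      exact hm z hz
  · apply le_csSup
    · refine ⟨‖Matrix.det (E ξ)‖, ?_⟩
      rintro s ⟨z, hz, rfl⟩
      exact hm z hz
    · exact ⟨ξ, fun a => hξ a (Set.mem_univ a), rfl⟩

lemma reg_nonempty {n : ℕ} {K : Set (Fin n → ℂ)} {V : (Fin n → ℂ) → ℝ} (h : Reg K V) : K.Nonempty := by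
  by_contra hne
  rw [Set.not_nonempty_iff_eq_empty] at hne
  have h1 := (h.2 0).1
  have h2 : Real.log ‖MvPolynomial.eval (0 : Fin n → ℂ)
      (MvPolynomial.C ((Real.exp (V 0 + 1) : ℝ) : ℂ) : MvPolynomial (Fin n) ℂ)‖ / ((1 : ℕ) : ℝ) ≤ V 0 := by
    apply h1
    refine ⟨1, le_refl 1, MvPolynomial.C ((Real.exp (V 0 + 1) : ℝ) : ℂ), ?_, ?_, rfl⟩
    · rw [MvPolynomial.totalDegree_C]; exact Nat.zero_le 1
    · intro x hx
      rw [hne] at hx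
      exact absurd hx (Set.notMem_empty x)
  rw [MvPolynomial.eval_C, Complex.norm_real, Real.norm_eq_abs, abs_of_pos (Real.exp_pos _),
    Real.log_exp] at h2
  norm_num at h2

lemma exists_max_eval {n : ℕ} {K : Set (Fin n → ℂ)} (hK : IsCompact K) (hne : K.Nonempty)
    (p : MvPolynomial (Fin n) ℂ) :
    ∃ a ∈ K, ∀ y ∈ K, ‖MvPolynomial.eval y p‖ ≤ ‖MvPolynomial.eval a p‖ := by
  have hc : Continuous (fun y : Fin n → ℂ => ‖MvPolynomial.eval y p‖) :=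
    (MvPolynomial.continuous_eval p).norm
  obtain ⟨a, ha, hamax⟩ := hK.exists_isMaxOn hne hc.continuousOn
  exact ⟨a, ha, isMaxOn_iff.mp hamax⟩

lemma exp_aux (x : ℝ) (hx : 0 < x) (j : ℕ) : x ^ (2 * j) = Real.exp (2 * (j : ℝ) * Real.log x) := by
  rw [mul_comm (2 * (j : ℝ)) (Real.log x), Real.exp_mul, Real.exp_log hx]
  have h : (2 * (j : ℝ)) = ((2 * j : ℕ) : ℝ) := by push_cast; ring
  rw [h, Real.rpow_natCast]

/-- real-number bookkeeping -/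
lemma expo_aux (lam Lam δ ρ k0 m : ℝ) (hlam0 : 0 < lam) (hLam0 : 0 < Lam)
    (hδ : δ * (lam + Lam + 1) = 1 / 16) (hδ0 : 0 < δ) (hρ1 : 1 ≤ ρ) (hkρ : 2 * k0 * lam ≤ ρ)
    (hm0 : 0 ≤ m) (hmle : m ≤ δ * ρ) :
    -ρ + 2 * (lam / 8) * (k0 + m) + 2 * m * Lam ≤ -(ρ / 2) := by
  have e1 : 2 * (lam / 8) * k0 ≤ ρ / 8 := by
    have : 2 * (lam / 8) * k0 = (2 * k0 * lam) / 8 := by ring
    rw [this]; linarith
  have e3 : 2 * m * (lam / 8 + Lam) ≤ ρ / 8 := by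
    have h1 : 2 * m * (lam / 8 + Lam) ≤ 2 * (δ * ρ) * (lam + Lam + 1) := by
      apply mul_le_mul
      · linarith
      · linarith
      · linarith
      · have : 0 ≤ δ * ρ := by positivity
        linarith
    have h2 : 2 * (δ * ρ) * (lam + Lam + 1) = 2 * ρ * (δ * (lam + Lam + 1)) := by ring
    rw [h2, hδ] at h1
    linarith
  have e4 : 2 * m * (lam / 8 + Lam) = 2 * (lam / 8) * m + 2 * m * Lam := by ring
  have e5 : 2 * (lam / 8) * (k0 + m) = 2 * (lam / 8) * k0 + 2 * (lam / 8) * m := by ring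
  rw [e5]
  linarith

/-- the choice of the maximal point and the smallness of the integral -/
lemma bad_aux {n : ℕ} {K : Set (Fin n → ℂ)} (hK : IsCompact K) (hne : K.Nonempty)
    (p : MvPolynomial (Fin n) ℂ) (ν : Measure (Fin n → ℂ)) (ρ : ℝ) (x : Fin n → ℂ) (hx : x ∈ K)
    (hbad : Real.exp ρ * ∫ y, ‖MvPolynomial.eval y p‖ ^ 2 ∂ν < ‖MvPolynomial.eval x p‖ ^ 2) :
    ∃ a ∈ K, (∀ y ∈ K, ‖MvPolynomial.eval y p‖ ≤ ‖MvPolynomial.eval a p‖) ∧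
      0 < ‖MvPolynomial.eval a p‖ ∧
      ∫ y, ‖MvPolynomial.eval y p‖ ^ 2 ∂ν ≤ Real.exp (-ρ) * ‖MvPolynomial.eval a p‖ ^ 2 := by
  obtain ⟨a, ha, hmaxp⟩ := exists_max_eval hK hne p
  have hint0 : 0 ≤ ∫ y, ‖MvPolynomial.eval y p‖ ^ 2 ∂ν :=
    integral_nonneg (fun z => pow_nonneg (norm_nonneg _) 2)
  have hxa : ‖MvPolynomial.eval x p‖ ^ 2 ≤ ‖MvPolynomial.eval a p‖ ^ 2 :=
    pow_le_pow_left₀ (norm_nonneg _) (hmaxp x hx) 2
  generalize (∫ y, ‖MvPolynomial.eval y p‖ ^ 2 ∂ν) = J at *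
  refine ⟨a, ha, hmaxp, ?_, ?_⟩
  · generalize ‖MvPolynomial.eval x p‖ = u at *
    have hna := norm_nonneg (MvPolynomial.eval a p)
    generalize ‖MvPolynomial.eval a p‖ = v at *
    have h0 : 0 < v ^ 2 := lt_of_le_of_lt (mul_nonneg (Real.exp_pos ρ).le hint0) (lt_of_lt_of_le hbad hxa)
    rcases hna.lt_or_eq with h | h
    · exact h
    · rw [← h] at h0; norm_num at h0
  · generalize ‖MvPolynomial.eval x p‖ = u at *
    generalize ‖MvPolynomial.eval a p‖ = v at *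
    have h1 : J = Real.exp (-ρ) * (Real.exp ρ * J) := by
      rw [← mul_assoc, ← Real.exp_add]
      simp
    rw [h1]
    exact mul_le_mul_of_nonneg_left (lt_of_lt_of_le hbad hxa).le (Real.exp_pos _).le

lemma step (t15 : T15) {n : ℕ} {K : Set (Fin n → ℂ)} (hK : IsCompact K) (hne : K.Nonempty)
    (ν : Measure (Fin n → ℂ)) [IsFiniteMeasure ν] (hν : ν Kᶜ = 0) (lam Lam r D δ ρ : ℝ) (k0 m : ℕ)
    (p : MvPolynomial (Fin n) ℂ) (x : Fin n → ℂ) (hx : x ∈ K) (hlam0 : 0 < lam)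
    (hLam : Lam = Real.log (1 + D / r)) (hLam0 : 0 < Lam) (hδ : δ * (lam + Lam + 1) = 1 / 16) (hδ0 : 0 < δ)
    (hρ1 : 1 ≤ ρ) (hkρ : 2 * (k0 : ℝ) * lam ≤ ρ) (hmle : (m : ℝ) ≤ δ * ρ) (hr : 0 < r) (hDpos : 0 < D)
    (hbw : BWnear K (lam / 8) r) (hdist : ∀ x ∈ K, ∀ y ∈ K, dist x y ≤ D) (hp : p.totalDegree ≤ k0)
    (hbad : Real.exp ρ * ∫ y, ‖MvPolynomial.eval y p‖ ^ 2 ∂ν < ‖MvPolynomial.eval x p‖ ^ 2)
    (hVpos : 0 < VV n (k0 + m) K) :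
    ZZ n (k0 + m) ν ≤ VV n (k0 + m) K ^ 2 * ((Fintype.card (I n (k0 + m))).factorial : ℝ) ^ 2 *
      ((Fintype.card (I n (k0 + m)) : ℝ) ^ 2 * ((ν Set.univ).toReal + 1)) ^ (Fintype.card (I n (k0 + m))) *
      Real.exp (-(ρ / 2)) ^ (Fintype.card (I n m)) := by
  obtain ⟨a, ha, hmaxp, hposa, hω⟩ := bad_aux hK hne p ν ρ x hx hbad
  obtain ⟨ξ, hξ, hξmax, hξV⟩ := exists_max_det (n := n) (k := k0 + m) hK hne
  have hDr : 0 < D / r := div_pos hDpos hr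
  rw [hξV] at hVpos ⊢
  have hν0 : 0 ≤ (ν Set.univ).toReal := ENNReal.toReal_nonneg
  have hmain := t15 n K ν (lam / 8) r D (Real.exp (-ρ)) k0 m p a ξ hK hν (by linarith) hr hDpos
    (Real.exp_pos _).le hbw hdist hp ha hmaxp hposa hω hξ hξmax hVpos
  refine hmain.trans ?_
  have hbase : Real.exp (-ρ) * Real.exp (2 * (lam / 8) * ((k0 : ℝ) + (m : ℝ))) * (1 + D / r) ^ (2 * m) ≤
      Real.exp (-(ρ / 2)) := by
    rw [exp_aux (1 + D / r) (by linarith) m, ← hLam, ← Real.exp_add, ← Real.exp_add]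
    apply Real.exp_le_exp.mpr
    exact expo_aux lam Lam δ ρ k0 m hlam0 hLam0 hδ hδ0 hρ1 hkρ (Nat.cast_nonneg m) hmle
  have hbase0 : 0 ≤ Real.exp (-ρ) * Real.exp (2 * (lam / 8) * ((k0 : ℝ) + (m : ℝ))) * (1 + D / r) ^ (2 * m) :=
    mul_nonneg (mul_nonneg (Real.exp_pos _).le (Real.exp_pos _).le) (pow_nonneg (by linarith) _)
  have hpow := pow_le_pow_left₀ hbase0 hbase (Fintype.card (I n m))
  refine mul_le_mul_of_nonneg_left hpow ?_
  have h1 : 0 ≤ (ν Set.univ).toReal + 1 := by linarith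
  exact mul_nonneg (mul_nonneg (pow_nonneg (norm_nonneg _) 2) (pow_nonneg (Nat.cast_nonneg _) 2))
    (pow_nonneg (mul_nonneg (pow_nonneg (Nat.cast_nonneg _) 2) h1) _)

end H716BM
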