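import Pool.Agent.H716BM.Assemble

set_option autoImplicit false

open MeasureTheory Filter Topology

namespace H716BM

lemma forward (t14 : T14) (t16 : T16) {n : ℕ} (hn : 2 ≤ n) {K : Set (Fin n → ℂ)} (hK : IsCompact K)
    (hne : K.Nonempty) (ν : Measure (Fin n → ℂ)) [IsFiniteMeasure ν] (hν : ν Kᶜ = 0) (L d0 : ℝ)
    (hVlow : ∀ k : ℕ, Real.exp (-L * ll n k) ≤ VV n k K) (hd0 : Real.exp (-L) ≤ d0)
    (hlim : Tendsto (fun k : ℕ => VV n k K ^ ((1 : ℝ) / ll n k)) atTop (𝓝 d0))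
    (hBM : ∀ ε : ℝ, 0 < ε → ∃ C : ℝ, ∀ (k : ℕ) (p : MvPolynomial (Fin n) ℂ), p.totalDegree ≤ k →
        ∀ x ∈ K, ‖MvPolynomial.eval x p‖ ^ 2 ≤
          C * (1 + ε) ^ (2 * k) * ∫ y, ‖MvPolynomial.eval y p‖ ^ 2 ∂ν) :
    Tendsto (fun k : ℕ => ZZ n k ν ^ ((1 : ℝ) / (2 * ll n k))) atTop (𝓝 d0) := by
  have hZ0 : ∀ k, 0 ≤ ZZ n k ν := fun k => integral_nonneg (fun z => pow_nonneg (norm_nonneg _) 2)
  have hν0 : 0 ≤ (ν Set.univ).toReal := ENNReal.toReal_nonneg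
  obtain ⟨h1, h2⟩ := t16 n K ν hK hne hν
  exact t14 n (fun k => VV n k K) (fun k => ZZ n k ν) d0 L ((ν Set.univ).toReal + 1) (by omega)
    (by linarith) (lt_of_lt_of_le (Real.exp_pos _) hd0) hVlow hZ0 hlim h1 (h2 hBM)

lemma backward (t13 : T13) (t15 : T15) {n : ℕ} (hn : 2 ≤ n) {K : Set (Fin n → ℂ)} (hK : IsCompact K)
    (hne : K.Nonempty) (ν : Measure (Fin n → ℂ)) [IsFiniteMeasure ν] (hν : ν Kᶜ = 0) (L d : ℝ)
    (hnear : ∀ η : ℝ, 0 < η → ∃ r : ℝ, 0 < r ∧ BWnear K η r)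
    (hVlow : ∀ k : ℕ, Real.exp (-L * ll n k) ≤ VV n k K)
    (hd1 : Tendsto (fun k : ℕ => VV n k K ^ ((1 : ℝ) / ll n k)) atTop (𝓝 d))
    (hd2 : Tendsto (fun k : ℕ => ZZ n k ν ^ ((1 : ℝ) / (2 * ll n k))) atTop (𝓝 d))
    (ε : ℝ) (hε : 0 < ε)
    (hC : ∀ C : ℝ, ∃ (k : ℕ) (p : MvPolynomial (Fin n) ℂ), p.totalDegree ≤ k ∧ ∃ x ∈ K,
        C * (1 + ε) ^ (2 * k) * (∫ y, ‖MvPolynomial.eval y p‖ ^ 2 ∂ν) < ‖MvPolynomial.eval x p‖ ^ 2) :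
    False := by
  have hZ0 : ∀ k, 0 ≤ ZZ n k ν := fun k => integral_nonneg (fun z => pow_nonneg (norm_nonneg _) 2)
  have hν0 : 0 ≤ (ν Set.univ).toReal := ENNReal.toReal_nonneg
  obtain ⟨lam, hlam⟩ : ∃ lam : ℝ, lam = Real.log (1 + ε) := ⟨_, rfl⟩
  have hlam0 : 0 < lam := by rw [hlam]; exact Real.log_pos (by linarith)
  obtain ⟨r, hr, hbw⟩ := hnear (lam / 8) (by linarith)
  obtain ⟨D0, hD0⟩ := hK.isBounded.exists_norm_le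
  have hD0' : 0 ≤ D0 := le_trans (norm_nonneg _) (hD0 _ hne.some_mem)
  obtain ⟨D, hD⟩ : ∃ D : ℝ, D = D0 + D0 + 1 := ⟨_, rfl⟩
  have hDpos : 0 < D := by linarith
  have hdist : ∀ x ∈ K, ∀ y ∈ K, dist x y ≤ D := by
    intro x hx y hy
    rw [dist_eq_norm]
    have := norm_sub_le x y
    linarith [hD0 x hx, hD0 y hy]
  obtain ⟨Lam, hLam⟩ : ∃ Lam : ℝ, Lam = Real.log (1 + D / r) := ⟨_, rfl⟩
  have hDr : 0 < D / r := div_pos hDpos hr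
  have hLam0 : 0 < Lam := by rw [hLam]; exact Real.log_pos (by linarith)
  have hS : 0 < lam + Lam + 1 := by linarith
  obtain ⟨δ, hδ⟩ : ∃ δ : ℝ, δ = 1 / (16 * (lam + Lam + 1)) := ⟨_, rfl⟩
  have hδ0 : 0 < δ := by rw [hδ]; positivity
  have hδ1 : δ * (lam + Lam + 1) = 1 / 16 := by
    rw [hδ]
    field_simp
  have hκ : 0 < 1 / (2 * lam) + δ := by positivity
  refine t13 n (fun k => VV n k K) (fun k => ZZ n k ν) d L δ (1 / (2 * lam) + δ)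
    ((ν Set.univ).toReal + 1) (by omega) hδ0 hκ (by linarith) hVlow hZ0 hd1 hd2 ?_
  intro ρ₀
  obtain ⟨k0, p, hp, x, hx, hbad⟩ := hC (Real.exp (max ρ₀ 1))
  obtain ⟨ρ, hρ⟩ : ∃ ρ : ℝ, ρ = max ρ₀ 1 + 2 * k0 * lam := ⟨_, rfl⟩
  have hk0lam : 0 ≤ 2 * (k0 : ℝ) * lam := by positivity
  have hmx1 := le_max_right ρ₀ 1
  have hmx0 := le_max_left ρ₀ 1
  have hρ1 : 1 ≤ ρ := by linarith
  have hρ0 : ρ₀ ≤ ρ := by linarith
  have hkρ : 2 * (k0 : ℝ) * lam ≤ ρ := by linarith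
  have hδρ : 0 ≤ δ * ρ := mul_nonneg hδ0.le (by linarith)
  obtain ⟨m, hm⟩ : ∃ m : ℕ, m = ⌊δ * ρ⌋₊ := ⟨_, rfl⟩
  have hmle : (m : ℝ) ≤ δ * ρ := by rw [hm]; exact Nat.floor_le hδρ
  have hmge : δ * ρ - 1 ≤ (m : ℝ) := by
    have := Nat.lt_floor_add_one (δ * ρ)
    rw [← hm] at this
    linarith
  refine ⟨ρ, hρ0, k0 + m, m, hmge, Nat.le_add_left _ _, ?_, ?_⟩
  · push_cast
    have h2 : (k0 : ℝ) ≤ 1 / (2 * lam) * ρ := by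
      rw [div_mul_eq_mul_div, one_mul, le_div_iff₀ (by linarith)]
      linarith
    have h3 : (1 / (2 * lam) + δ) * ρ = 1 / (2 * lam) * ρ + δ * ρ := by ring
    rw [h3]
    linarith
  · have hCe : Real.exp (max ρ₀ 1) * (1 + ε) ^ (2 * k0) = Real.exp ρ := by
      rw [exp_aux (1 + ε) (by linarith) k0, ← hlam, ← Real.exp_add, hρ]
    rw [hCe] at hbad
    exact step t15 hK hne ν hν lam Lam r D δ ρ k0 m p x hx hlam0 hLam hLam0 hδ1 hδ0 hρ1 hkρ hmle hr hDpos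
      hbw hdist hp hbad (lt_of_lt_of_le (Real.exp_pos _) (hVlow _))

theorem assemble (t3 : T3) (t12 : T12) (t13 : T13) (t14 : T14) (t15 : T15) (t16 : T16) :
  ∀ (n : ℕ), 2 ≤ n → ∀ (K : Set (Fin n → ℂ)), IsCompact K →
    (∃ V : (Fin n → ℂ) → ℝ, Reg K V) →
    ∀ (ν : MeasureTheory.Measure (Fin n → ℂ)) [MeasureTheory.IsFiniteMeasure ν], ν Kᶜ = 0 →
    ((∀ ε : ℝ, 0 < ε → ∃ C : ℝ, ∀ (k : ℕ) (p : MvPolynomial (Fin n) ℂ), p.totalDegree ≤ k →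
        ∀ x ∈ K, ‖MvPolynomial.eval x p‖ ^ 2 ≤
          C * (1 + ε) ^ (2 * k) * ∫ y, ‖MvPolynomial.eval y p‖ ^ 2 ∂ν)
    ↔
    ∃ d : ℝ,
      Filter.Tendsto (fun k : ℕ => VV n k K ^ ((1 : ℝ) / ll n k)) Filter.atTop (nhds d) ∧
      Filter.Tendsto (fun k : ℕ => ZZ n k ν ^ ((1 : ℝ) / (2 * ll n k))) Filter.atTop (nhds d)) := by
  intro n hn K hK hV ν _ hν
  obtain ⟨V, hreg⟩ := hV
  have hne := reg_nonempty hreg
  obtain ⟨hnear, L, hL0, hL⟩ := t3 n K V hK hne hreg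
  obtain ⟨hVlow, d0, hd0, hlim⟩ := t12 n K L (by omega) hK hne hL0 hL
  constructor
  · intro hBM
    exact ⟨d0, hlim, forward t14 t16 hn hK hne ν hν L d0 hVlow hd0 hlim hBM⟩
  · rintro ⟨d, hd1, hd2⟩
    by_contra hBM
    rw [not_forall] at hBM
    obtain ⟨ε, hBM⟩ := hBM
    rw [Classical.not_imp, not_exists] at hBM
    obtain ⟨hε, hC⟩ := hBM
    refine backward t13 t15 hn hK hne ν hν L d hnear hVlow hd1 hd2 ε hε ?_
    intro C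
    have h1 := hC C
    rw [not_forall] at h1
    obtain ⟨k, h1⟩ := h1
    rw [not_forall] at h1
    obtain ⟨p, h1⟩ := h1
    rw [Classical.not_imp, not_forall] at h1
    obtain ⟨hp, x, h1⟩ := h1
    rw [Classical.not_imp, not_le] at h1
    exact ⟨k, p, hp, x, h1.1, h1.2⟩

end H716BM
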