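import Mathlib

/-! Bernstein-Markov measures and Vandermonde integrals (MP_a9f24d_an, frozen statement S05749): definitions and
task statements. -/

set_option autoImplicit false

open MeasureTheory Filter Topology

namespace H716BM

/-- exponents of degree at most `k` -/
abbrev I (n k : ℕ) : Type := {α : Fin n → Fin (k+1) // ∑ i, (α i : ℕ) ≤ k}

/-- the Vandermonde matrix -/
noncomputable def E {n k : ℕ} (z : I n k → (Fin n → ℂ)) : Matrix (I n k) (I n k) ℂ :=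
  Matrix.of (fun a b : I n k => ∏ i, z a i ^ ((b.1 i : ℕ)))

/-- the sum of all degrees -/
noncomputable def ll (n k : ℕ) : ℝ := ∑ a : I n k, ∑ i, ((a.1 i : ℕ) : ℝ)

/-- maximal Vandermonde determinant -/
noncomputable def VV (n k : ℕ) (K : Set (Fin n → ℂ)) : ℝ :=
  sSup {s : ℝ | ∃ z : I n k → (Fin n → ℂ), (∀ a, z a ∈ K) ∧ s = ‖Matrix.det (E z)‖}

/-- the Vandermonde integral -/
noncomputable def ZZ (n k : ℕ) (ν : Measure (Fin n → ℂ)) : ℝ :=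
  ∫ z, ‖Matrix.det (E z)‖ ^ 2 ∂(Measure.pi (fun _ : I n k => ν))

/-- regularity witness: `V` is the (continuous) extremal function of `K` -/
def Reg {n : ℕ} (K : Set (Fin n → ℂ)) (V : (Fin n → ℂ) → ℝ) : Prop :=
  Continuous V ∧ ∀ z : Fin n → ℂ,
      IsLUB {t : ℝ | ∃ k : ℕ, 1 ≤ k ∧ ∃ p : MvPolynomial (Fin n) ℂ, p.totalDegree ≤ k ∧
        (∀ x ∈ K, ‖MvPolynomial.eval x p‖ ≤ 1) ∧
        t = Real.log ‖MvPolynomial.eval z p‖ / (k : ℝ)} (V z)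

/-- Bernstein-Walsh near `K`. -/
def BWnear {n : ℕ} (K : Set (Fin n → ℂ)) (η r : ℝ) : Prop :=
  ∀ (k : ℕ) (p : MvPolynomial (Fin n) ℂ), p.totalDegree ≤ k → ∀ M : ℝ,
    (∀ x ∈ K, ‖MvPolynomial.eval x p‖ ≤ M) →
    ∀ z : Fin n → ℂ, (∃ x ∈ K, dist z x ≤ r) → ‖MvPolynomial.eval z p‖ ≤ Real.exp (η * k) * M

/-- Bernstein-Walsh on the unit polydisc. -/
def BWdisc {n : ℕ} (K : Set (Fin n → ℂ)) (L : ℝ) : Prop :=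
  ∀ (k : ℕ) (p : MvPolynomial (Fin n) ℂ), p.totalDegree ≤ k → ∀ M : ℝ,
    (∀ x ∈ K, ‖MvPolynomial.eval x p‖ ≤ M) →
    ∀ z : Fin n → ℂ, (∀ i, ‖z i‖ ≤ 1) → ‖MvPolynomial.eval z p‖ ≤ Real.exp (L * k) * M

/-- T1 -/
def T1 : Prop := ∀ (n : ℕ) (p q : MvPolynomial (Fin n) ℂ) (m : ℕ), q.totalDegree ≤ m →
  ∀ (a b : Fin n → ℂ) (r D : ℝ), 0 < r → 0 < D → dist a b ≤ D →
  ∃ z : Fin n → ℂ, dist z a ≤ r ∧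
    ‖MvPolynomial.eval a p‖ * ‖MvPolynomial.eval b q‖ ≤
      (1 + D / r) ^ m * (‖MvPolynomial.eval z p‖ * ‖MvPolynomial.eval z q‖)

/-- T2 -/
def T2 : Prop := ∀ (n : ℕ) (p : MvPolynomial (Fin n) ℂ) (α : Fin n →₀ ℕ) (M : ℝ),
  (∀ z : Fin n → ℂ, (∀ i, ‖z i‖ = 1) → ‖MvPolynomial.eval z p‖ ≤ M) → ‖p.coeff α‖ ≤ M

/-- T3 -/
def T3 : Prop := ∀ (n : ℕ) (K : Set (Fin n → ℂ)) (V : (Fin n → ℂ) → ℝ), IsCompact K → K.Nonempty →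
  Reg K V → (∀ η : ℝ, 0 < η → ∃ r : ℝ, 0 < r ∧ BWnear K η r) ∧ ∃ L : ℝ, 0 ≤ L ∧ BWdisc K L

/-- T4 -/
def T4 : Prop := ∀ (X : Type) (K : Set X) (φ : ℕ → X → ℂ) (τ : ℕ → ℝ) (N : ℕ), K.Nonempty → (∀ i, 0 ≤ τ i) →
  (∀ i < N, ∀ c : ℕ → ℂ, ∃ x ∈ K, τ i ≤ ‖φ i x + ∑ j ∈ Finset.range i, c j * φ j x‖) →
  ∃ x : Fin N → X, (∀ i, x i ∈ K) ∧
    ∏ i ∈ Finset.range N, τ i ≤ ‖Matrix.det (Matrix.of fun a b : Fin N => φ b (x a))‖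

/-- T5 -/
def T5 : Prop := ∀ (X : Type) (K : Set X) (φ : ℕ → X → ℂ) (τ : ℕ → ℝ) (c : ℕ → ℕ → ℂ) (N : ℕ),
  (∀ i < N, ∀ x ∈ K, ‖φ i x + ∑ j ∈ Finset.range i, c i j * φ j x‖ ≤ τ i) →
  ∀ x : Fin N → X, (∀ a, x a ∈ K) →
    ‖Matrix.det (Matrix.of fun a b : Fin N => φ b (x a))‖ ≤ (N.factorial : ℝ) * ∏ i ∈ Finset.range N, τ i

/-- T6 -/
def T6 : Prop := ∀ (n : ℕ) (f : (Fin n → ℕ) → ℝ) (C : ℝ), (∀ α β, f (α + β) ≤ f α + f β) →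
  (∀ α, 0 ≤ f α) → (∀ α, f α ≤ C * ∑ i, (α i : ℝ)) →
  ∃ L : ℝ, Tendsto (fun k : ℕ => (∑ a : I n k, f (fun i => (a.1 i : ℕ))) / (k : ℝ) ^ (n + 1)) atTop (𝓝 L)

/-- T7 -/
def T7 : Prop :=
  (∀ n k : ℕ, Fintype.card (I n k) ≤ (k + 1) ^ n) ∧
  (∀ n k : ℕ, 1 ≤ n → (k : ℝ) * Fintype.card (I n k) ≤ 2 * ll n k) ∧
  (∀ n k : ℕ, ll n k ≤ k * Fintype.card (I n k)) ∧
  (∀ n m k q : ℕ, 1 ≤ q → k ≤ q * m → Fintype.card (I n k) ≤ q ^ n * Fintype.card (I n m)) ∧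
  (∀ n k : ℕ, 1 ≤ n → (k : ℝ) ^ n ≤ (n : ℝ) ^ n * Fintype.card (I n k)) ∧
  (∀ n k : ℕ, 1 ≤ Fintype.card (I n k))

/-- T8 -/
def T8 : Prop := ∀ (ι X : Type) [Fintype ι] [DecidableEq ι] [MeasurableSpace X] (ν : Measure X)
  [IsFiniteMeasure ν] (f : ι → X → ℂ), (∀ i, AEStronglyMeasurable (f i) ν) →
  (∀ i, Integrable (fun x => ‖f i x‖ ^ 2) ν) →
  ∫ x, ‖Matrix.det (Matrix.of fun a b : ι => f b (x a))‖ ^ 2 ∂(Measure.pi fun _ : ι => ν) ≤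
    ((Fintype.card ι).factorial : ℝ) ^ 2 * ∏ i, ∫ x, ‖f i x‖ ^ 2 ∂ν

/-- T9 -/
def T9 : Prop := ∀ (n : ℕ) (ι : Type) [Fintype ι] [DecidableEq ι] (K : Set (Fin n → ℂ))
  (ν : Measure (Fin n → ℂ)) [IsFiniteMeasure ν] (F : (ι → Fin n → ℂ) → ℝ) (A : ℝ),
  IsCompact K → ν Kᶜ = 0 → Continuous F → (∀ x, 0 ≤ F x) → 0 ≤ A →
  (∀ x, (∀ a, x a ∈ K) → ∀ a, F x ≤ A * ∫ y, F (Function.update x a y) ∂ν) →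
  ∀ x, (∀ a, x a ∈ K) → F x ≤ A ^ (Fintype.card ι) * ∫ z, F z ∂(Measure.pi fun _ : ι => ν)

/-- T10 -/
def T10 : Prop := ∀ (ι : Type) [Fintype ι] [DecidableEq ι] (W : Submodule ℂ (ι → ℂ)),
  ∃ (U : Matrix ι ι ℂ) (S : Finset ι), U ∈ Matrix.unitaryGroup ι ℂ ∧ S.card = Module.finrank ℂ W ∧
    ∀ i ∈ S, (fun a => U a i) ∈ W

/-- T11 (Chebyshev constants) -/
def T11 : Prop := ∀ (n : ℕ) (K : Set (Fin n → ℂ)) (L : ℝ), IsCompact K → K.Nonempty → 0 ≤ L → BWdisc K L →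
  ∃ T : (Fin n → ℕ) → ℝ, (∀ α, Real.exp (-L * ∑ i, (α i : ℝ)) ≤ T α) ∧
    (∀ α β, T (α + β) ≤ T α * T β) ∧
    (∃ R : ℝ, 0 ≤ R ∧ ∀ α, T α ≤ Real.exp (R * ∑ i, (α i : ℝ))) ∧
    ∀ k : ℕ,
      (∃ z : I n k → (Fin n → ℂ), (∀ a, z a ∈ K) ∧
        ∏ b : I n k, T (fun i => (b.1 i : ℕ)) ≤ ‖Matrix.det (E z)‖) ∧
      (∀ z : I n k → (Fin n → ℂ), (∀ a, z a ∈ K) →
        ‖Matrix.det (E z)‖ ≤ ((Fintype.card (I n k)).factorial : ℝ) * ∏ b : I n k, T (fun i => (b.1 i : ℕ)))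

/-- T12 (Zaharjuta) -/
def T12 : Prop := ∀ (n : ℕ) (K : Set (Fin n → ℂ)) (L : ℝ), 1 ≤ n → IsCompact K → K.Nonempty → 0 ≤ L →
  BWdisc K L → (∀ k : ℕ, Real.exp (-L * ll n k) ≤ VV n k K) ∧
  ∃ d : ℝ, Real.exp (-L) ≤ d ∧ Tendsto (fun k : ℕ => VV n k K ^ ((1 : ℝ) / ll n k)) atTop (𝓝 d)

/-- T13 (asymptotics, final contradiction) -/
def T13 : Prop := ∀ (n : ℕ) (V Z : ℕ → ℝ) (d L δ κ c : ℝ), 1 ≤ n → 0 < δ → 0 < κ → 1 ≤ c →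
  (∀ k, Real.exp (-L * ll n k) ≤ V k) → (∀ k, 0 ≤ Z k) →
  Tendsto (fun k : ℕ => V k ^ ((1 : ℝ) / ll n k)) atTop (𝓝 d) →
  Tendsto (fun k : ℕ => Z k ^ ((1 : ℝ) / (2 * ll n k))) atTop (𝓝 d) →
  (∀ ρ₀ : ℝ, ∃ ρ : ℝ, ρ₀ ≤ ρ ∧ ∃ k m : ℕ, δ * ρ - 1 ≤ m ∧ m ≤ k ∧ (k : ℝ) ≤ κ * ρ ∧
    Z k ≤ V k ^ 2 * ((Fintype.card (I n k)).factorial : ℝ) ^ 2 *
      ((Fintype.card (I n k) : ℝ) ^ 2 * c) ^ (Fintype.card (I n k)) *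
      Real.exp (-(ρ / 2)) ^ (Fintype.card (I n m))) → False

/-- T14 (asymptotics of Z under Bernstein-Markov) -/
def T14 : Prop := ∀ (n : ℕ) (V Z : ℕ → ℝ) (d L c : ℝ), 1 ≤ n → 1 ≤ c → 0 < d →
  (∀ k, Real.exp (-L * ll n k) ≤ V k) → (∀ k, 0 ≤ Z k) →
  Tendsto (fun k : ℕ => V k ^ ((1 : ℝ) / ll n k)) atTop (𝓝 d) →
  (∀ k, Z k ≤ V k ^ 2 * c ^ (Fintype.card (I n k))) →
  (∀ ε : ℝ, 0 < ε → ∃ C : ℝ, 0 < C ∧ ∀ k, V k ^ 2 ≤ (C * (1 + ε) ^ (2 * k)) ^ (Fintype.card (I n k)) * Z k) →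
  Tendsto (fun k : ℕ => Z k ^ ((1 : ℝ) / (2 * ll n k))) atTop (𝓝 d)

/-- T15 (the core inequality) -/
def T15 : Prop := ∀ (n : ℕ) (K : Set (Fin n → ℂ)) (ν : Measure (Fin n → ℂ)) [IsFiniteMeasure ν]
  (η r D ω : ℝ) (k m : ℕ) (p : MvPolynomial (Fin n) ℂ) (a : Fin n → ℂ) (ξ : I n (k + m) → (Fin n → ℂ)),
  IsCompact K → ν Kᶜ = 0 → 0 ≤ η → 0 < r → 0 < D → 0 ≤ ω → BWnear K η r →
  (∀ x ∈ K, ∀ y ∈ K, dist x y ≤ D) → p.totalDegree ≤ k → a ∈ K →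
  (∀ x ∈ K, ‖MvPolynomial.eval x p‖ ≤ ‖MvPolynomial.eval a p‖) → 0 < ‖MvPolynomial.eval a p‖ →
  ∫ y, ‖MvPolynomial.eval y p‖ ^ 2 ∂ν ≤ ω * ‖MvPolynomial.eval a p‖ ^ 2 →
  (∀ i, ξ i ∈ K) → (∀ z : I n (k + m) → (Fin n → ℂ), (∀ i, z i ∈ K) → ‖Matrix.det (E z)‖ ≤ ‖Matrix.det (E ξ)‖) →
  0 < ‖Matrix.det (E ξ)‖ →
  ZZ n (k + m) ν ≤ ‖Matrix.det (E ξ)‖ ^ 2 * ((Fintype.card (I n (k + m))).factorial : ℝ) ^ 2 *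
    ((Fintype.card (I n (k + m)) : ℝ) ^ 2 * ((ν Set.univ).toReal + 1)) ^ (Fintype.card (I n (k + m))) *
    (ω * Real.exp (2 * η * (k + m)) * (1 + D / r) ^ (2 * m)) ^ (Fintype.card (I n m))

/-- T16 (first half of Bernstein-Markov implies (Z)) -/
def T16 : Prop := ∀ (n : ℕ) (K : Set (Fin n → ℂ)) (ν : Measure (Fin n → ℂ)) [IsFiniteMeasure ν],
  IsCompact K → K.Nonempty → ν Kᶜ = 0 →
  (∀ k, ZZ n k ν ≤ VV n k K ^ 2 * ((ν Set.univ).toReal + 1) ^ (Fintype.card (I n k))) ∧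
  ((∀ ε : ℝ, 0 < ε → ∃ C : ℝ, ∀ (k : ℕ) (p : MvPolynomial (Fin n) ℂ), p.totalDegree ≤ k →
        ∀ x ∈ K, ‖MvPolynomial.eval x p‖ ^ 2 ≤
          C * (1 + ε) ^ (2 * k) * ∫ y, ‖MvPolynomial.eval y p‖ ^ 2 ∂ν) →
   ∀ ε : ℝ, 0 < ε → ∃ C : ℝ, 0 < C ∧ ∀ k,
     VV n k K ^ 2 ≤ (C * (1 + ε) ^ (2 * k)) ^ (Fintype.card (I n k)) * ZZ n k ν)

/-- T17 (evaluation of a polynomial through its coefficients; and conversely) -/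
def T17 : Prop := ∀ (n k : ℕ),
  (∀ p : MvPolynomial (Fin n) ℂ, p.totalDegree ≤ k → ∃ c : I n k → ℂ, ∀ x : Fin n → ℂ,
    MvPolynomial.eval x p = ∑ b : I n k, c b * ∏ i, x i ^ ((b.1 i : ℕ))) ∧
  (∀ c : I n k → ℂ, ∃ p : MvPolynomial (Fin n) ℂ, p.totalDegree ≤ k ∧ (∀ x : Fin n → ℂ,
    MvPolynomial.eval x p = ∑ b : I n k, c b * ∏ i, x i ^ ((b.1 i : ℕ))) ∧ (p = 0 → c = 0))

end H716BM
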