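import Pool.Agent.H716BM.Stmts

set_option autoImplicit false

open MeasureTheory Filter Topology

namespace H716BM

/-- T18 (interpolation at Fekete points) -/
def T18 : Prop := ∀ (n k : ℕ) (K : Set (Fin n → ℂ)) (ξ : I n k → (Fin n → ℂ))
  (U : Matrix (I n k) (I n k) ℂ), U ∈ Matrix.unitaryGroup (I n k) ℂ → (∀ i, ξ i ∈ K) →
  (∀ z : I n k → (Fin n → ℂ), (∀ i, z i ∈ K) → ‖Matrix.det (E z)‖ ≤ ‖Matrix.det (E ξ)‖) →
  0 < ‖Matrix.det (E ξ)‖ →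
  ∃ f : I n k → MvPolynomial (Fin n) ℂ, (∀ i, (f i).totalDegree ≤ k) ∧
    (∀ i, ∀ x ∈ K, ‖MvPolynomial.eval x (f i)‖ ≤ Fintype.card (I n k)) ∧
    (∀ z : I n k → (Fin n → ℂ),
      ‖Matrix.det (Matrix.of fun a b : I n k => MvPolynomial.eval (z a) (f b))‖ * ‖Matrix.det (E ξ)‖
        = ‖Matrix.det (E z)‖) ∧
    (∀ i, ∀ g : MvPolynomial (Fin n) ℂ, g.totalDegree ≤ k → (∀ a, MvPolynomial.eval (ξ a) g = U a i) →
      ∀ x : Fin n → ℂ, MvPolynomial.eval x g = MvPolynomial.eval x (f i))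

/-- T19 (dimension of the space of multiples) -/
def T19 : Prop := ∀ (n k m : ℕ) (p : MvPolynomial (Fin n) ℂ) (ξ : I n (k + m) → (Fin n → ℂ)), p ≠ 0 →
  p.totalDegree ≤ k → Matrix.det (E ξ) ≠ 0 →
  ∃ W : Submodule ℂ (I n (k + m) → ℂ), Module.finrank ℂ W = Fintype.card (I n m) ∧
    ∀ w ∈ W, ∃ q : MvPolynomial (Fin n) ℂ, q.totalDegree ≤ m ∧
      ∀ a, w a = MvPolynomial.eval (ξ a) p * MvPolynomial.eval (ξ a) q

end H716BM
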