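import Pool.Agent.H716BM.Stmts

set_option autoImplicit false

open MeasureTheory Filter Topology

namespace H716BM

lemma norm_det_sq_le_own {ι : Type} [Fintype ι] [DecidableEq ι] (A : Matrix ι ι ℂ) :
    ‖A.det‖ ^ 2 ≤ ((Fintype.card ι).factorial : ℝ) * ∑ σ : Equiv.Perm ι, ∏ a, ‖A a (σ a)‖ ^ 2 := by
  have h0 : A.det = ∑ σ : Equiv.Perm ι, ((Equiv.Perm.sign σ : ℤ) : ℂ) * ∏ a, A a (σ a) := by
    rw [← Matrix.det_transpose, Matrix.det_apply']
    simp [Matrix.transpose_apply]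
  have h1 : ‖A.det‖ ≤ ∑ σ : Equiv.Perm ι, ∏ a, ‖A a (σ a)‖ := by
    rw [h0]
    refine (norm_sum_le _ _).trans (Finset.sum_le_sum fun σ _ => ?_)
    rw [norm_mul, norm_prod]
    have : ‖((Equiv.Perm.sign σ : ℤ) : ℂ)‖ = 1 := by
      rcases Int.units_eq_one_or (Equiv.Perm.sign σ) with h | h <;> simp [h]
    rw [this, one_mul]
  have h2 : ‖A.det‖ ^ 2 ≤ (∑ σ : Equiv.Perm ι, ∏ a, ‖A a (σ a)‖) ^ 2 :=
    pow_le_pow_left₀ (norm_nonneg _) h1 2
  refine h2.trans ?_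
  have h3 := sq_sum_le_card_mul_sum_sq (s := (Finset.univ : Finset (Equiv.Perm ι)))
    (f := fun σ => ∏ a, ‖A a (σ a)‖)
  rw [Finset.card_univ, Fintype.card_perm] at h3
  refine h3.trans (le_of_eq ?_)
  congr 1
  apply Finset.sum_congr rfl
  intro σ _
  rw [← Finset.prod_pow]

theorem task8own : T8 := by
  intro ι X _ _ _ ν _ f hf hint
  have hI : ∀ σ : Equiv.Perm ι, Integrable (fun x : ι → X => ∏ a, ‖f (σ a) (x a)‖ ^ 2)
      (Measure.pi fun _ : ι => ν) := by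
    intro σ
    exact Integrable.fintype_prod (f := fun a (y : X) => ‖f (σ a) y‖ ^ 2) (fun a => hint (σ a))
  have hE : ∀ σ : Equiv.Perm ι, ∫ x : ι → X, ∏ a, ‖f (σ a) (x a)‖ ^ 2 ∂(Measure.pi fun _ : ι => ν)
      = ∏ i, ∫ x, ‖f i x‖ ^ 2 ∂ν := by
    intro σ
    rw [integral_fintype_prod_eq_prod (f := fun a (y : X) => ‖f (σ a) y‖ ^ 2)]
    exact Equiv.prod_comp σ (fun i => ∫ x, ‖f i x‖ ^ 2 ∂ν)
  have hle : ∫ x, ‖Matrix.det (Matrix.of fun a b : ι => f b (x a))‖ ^ 2 ∂(Measure.pi fun _ : ι => ν) ≤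
      ∫ x : ι → X, ((Fintype.card ι).factorial : ℝ) * ∑ σ : Equiv.Perm ι, ∏ a, ‖f (σ a) (x a)‖ ^ 2
        ∂(Measure.pi fun _ : ι => ν) := by
    apply integral_mono_of_nonneg
    · exact Eventually.of_forall fun x => pow_nonneg (norm_nonneg _) 2
    · exact (integrable_finset_sum _ fun σ _ => hI σ).const_mul _
    · exact Eventually.of_forall fun x => norm_det_sq_le_own (Matrix.of fun a b : ι => f b (x a))
  refine hle.trans (le_of_eq ?_)
  rw [integral_const_mul, integral_finset_sum _ (fun σ _ => hI σ)]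
  simp only [hE]
  rw [Finset.sum_const, Finset.card_univ, Fintype.card_perm, nsmul_eq_mul]
  ring

end H716BM
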