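import Pool.Agent.H716BM.Stmts

/-! Task 1: product lower bound by Jensen's inequality. -/

set_option autoImplicit false

open Polynomial Metric

namespace H716BM

theorem t1_mahler_le (R : ℂ[X]) (S : ℝ) (hS : 0 < S)
    (h : ∀ t : ℂ, ‖t‖ = 1 → ‖R.eval t‖ ≤ S) : R.mahlerMeasure ≤ S := by
  by_cases hR : R = 0
  · rw [hR, mahlerMeasure_zero]; exact hS.le
  have hc : (C ((S : ℂ)⁻¹) : ℂ[X]) ≠ 0 := by
    rw [Ne, C_eq_zero, inv_eq_zero, Complex.ofReal_eq_zero]
    exact hS.ne'
  have h1 : (C ((S : ℂ)⁻¹) * R).mahlerMeasure ≤ 1 := by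
    rw [mahlerMeasure_def_of_ne_zero (mul_ne_zero hc hR)]
    rw [Real.exp_le_one_iff]
    change Real.circleAverage (fun x => Real.log ‖eval x (C ((S : ℂ)⁻¹) * R)‖) 0 1 ≤ 0
    refine Real.circleAverage_mono_on_of_le_circle ?_ ?_
    · exact intervalIntegrable_mahlerMeasure _
    · intro x hx
      have hx1 : ‖x‖ = 1 := by simpa using hx
      refine Real.log_nonpos (norm_nonneg _) ?_
      rw [eval_mul, eval_C, norm_mul, norm_inv, Complex.norm_real, Real.norm_eq_abs, abs_of_pos hS,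
        inv_mul_le_iff₀ hS, mul_one]
      exact h x hx1
  rw [mahlerMeasure_mul, mahlerMeasure_const, norm_inv, Complex.norm_real, Real.norm_eq_abs,
    abs_of_pos hS, inv_mul_le_iff₀ hS, mul_one] at h1
  exact h1

/-- The restriction of a polynomial to a line. -/
noncomputable def ln {n : ℕ} (p : MvPolynomial (Fin n) ℂ) (a b : Fin n → ℂ) : ℂ[X] :=
  MvPolynomial.aeval (fun i => C (a i) + C (b i) * X) p

theorem ln_eval {n : ℕ} (p : MvPolynomial (Fin n) ℂ) (a b : Fin n → ℂ) (t : ℂ) :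
    (ln p a b).eval t = MvPolynomial.eval (fun i => a i + b i * t) p := by
  unfold ln
  rw [← Polynomial.coe_evalRingHom, MvPolynomial.aeval_def, MvPolynomial.eval₂_eq', map_sum,
    MvPolynomial.eval_eq']
  refine Finset.sum_congr rfl fun d _ => ?_
  simp [Polynomial.eval_prod]

theorem ln_natDegree {n : ℕ} (p : MvPolynomial (Fin n) ℂ) (a b : Fin n → ℂ) :
    (ln p a b).natDegree ≤ p.totalDegree := by
  unfold ln
  rw [MvPolynomial.aeval_def, MvPolynomial.eval₂_eq']
  refine natDegree_sum_le_of_forall_le _ _ fun d hd => ?_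
  refine (natDegree_C_mul_le _ _).trans ?_
  refine (natDegree_prod_le _ _).trans ?_
  refine le_trans ?_ (MvPolynomial.le_totalDegree hd)
  rw [Finsupp.sum_fintype _ _ (fun _ => rfl)]
  refine Finset.sum_le_sum fun i _ => ?_
  refine natDegree_pow_le.trans ?_
  have : (C (a i) + C (b i) * X : ℂ[X]).natDegree ≤ 1 := by
    refine (natDegree_add_le _ _).trans ?_
    rw [natDegree_C]
    exact max_le (Nat.zero_le _) ((natDegree_C_mul_le _ _).trans natDegree_X_le)
  calc d i * _ ≤ d i * 1 := Nat.mul_le_mul_left _ this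
    _ = d i := mul_one _

theorem t1_eval_le (Q : ℂ[X]) (s : ℝ) (hs : 0 < s) (m : ℕ) (hm : Q.natDegree ≤ m) :
    ‖Q.eval (((1 / s : ℝ) : ℂ))‖ ≤ (1 + 1 / s) ^ m * Q.mahlerMeasure := by
  have hs' : 0 < 1 / s := by positivity
  rw [eval_eq_sum_range]
  have h1 : ∀ i ∈ Finset.range (Q.natDegree + 1),
      ‖Q.coeff i * (((1 / s : ℝ) : ℂ)) ^ i‖ ≤
        Q.mahlerMeasure * ((1 / s) ^ i * 1 ^ (Q.natDegree - i) * (Q.natDegree.choose i)) := by
    intro i _
    rw [norm_mul, norm_pow, Complex.norm_real, Real.norm_eq_abs, abs_of_pos hs', one_pow, mul_one]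
    have := norm_coeff_le_choose_mul_mahlerMeasure i Q
    calc ‖Q.coeff i‖ * (1 / s) ^ i ≤ ((Q.natDegree.choose i) * Q.mahlerMeasure) * (1 / s) ^ i :=
        mul_le_mul_of_nonneg_right this (by positivity)
      _ = _ := by ring
  calc ‖∑ i ∈ Finset.range (Q.natDegree + 1), Q.coeff i * (((1 / s : ℝ) : ℂ)) ^ i‖
      ≤ ∑ i ∈ Finset.range (Q.natDegree + 1), ‖Q.coeff i * (((1 / s : ℝ) : ℂ)) ^ i‖ := norm_sum_le _ _
    _ ≤ ∑ i ∈ Finset.range (Q.natDegree + 1),
        Q.mahlerMeasure * ((1 / s) ^ i * 1 ^ (Q.natDegree - i) * (Q.natDegree.choose i)) :=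
        Finset.sum_le_sum h1
    _ = Q.mahlerMeasure * (1 / s + 1) ^ Q.natDegree := by rw [← Finset.mul_sum, ← add_pow]
    _ ≤ Q.mahlerMeasure * (1 / s + 1) ^ m := by
        refine mul_le_mul_of_nonneg_left ?_ Q.mahlerMeasure_nonneg
        exact pow_le_pow_right₀ (by linarith) hm
    _ = _ := by rw [add_comm, mul_comm]

theorem task1 : T1 := by
  intro n p q m hq a b r D hr hD hab
  let s : ℝ := r / D
  have hs : 0 < s := div_pos hr hD
  let v : Fin n → ℂ := fun i => (s : ℂ) * (b i - a i)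
  let P := ln p a v
  let Q := ln q a v
  have hP0 : P.coeff 0 = MvPolynomial.eval a p := by
    rw [coeff_zero_eq_eval_zero, ln_eval]
    simp
  have hQ1 : Q.eval (((1 / s : ℝ) : ℂ)) = MvPolynomial.eval b q := by
    rw [ln_eval]
    congr 2
    funext i
    have hs' : (s : ℂ) ≠ 0 := by exact_mod_cast hs.ne'
    change a i + (s : ℂ) * (b i - a i) * (((1 / s : ℝ) : ℂ)) = b i
    push_cast
    field_simp
    ring
  have hPc : ‖MvPolynomial.eval a p‖ ≤ P.mahlerMeasure := by
    have := norm_coeff_le_choose_mul_mahlerMeasure 0 P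
    rw [Nat.choose_zero_right, Nat.cast_one, one_mul, hP0] at this
    exact this
  have hQc : ‖MvPolynomial.eval b q‖ ≤ (1 + 1 / s) ^ m * Q.mahlerMeasure := by
    rw [← hQ1]
    exact t1_eval_le Q s hs m ((ln_natDegree q a v).trans hq)
  have hsD : 1 / s = D / r := by
    change 1 / (r / D) = D / r
    rw [one_div_div]
  rw [hsD] at hQc
  have hDr : 0 < 1 + D / r := by positivity
  -- the maximum on the unit circle
  obtain ⟨t, ht, htm⟩ := (isCompact_sphere (0 : ℂ) 1).exists_isMaxOn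
    (NormedSpace.sphere_nonempty.2 zero_le_one)
    (f := fun t => ‖(P * Q).eval t‖) ((P * Q).continuous.norm.continuousOn)
  have ht1 : ‖t‖ = 1 := by simpa using ht
  have hmax : ∀ x : ℂ, ‖x‖ = 1 → ‖(P * Q).eval x‖ ≤ ‖(P * Q).eval t‖ := by
    intro x hx
    exact htm (by simpa using hx : x ∈ sphere (0 : ℂ) 1)
  have hM : (P * Q).mahlerMeasure ≤ ‖(P * Q).eval t‖ := by
    refine le_of_forall_pos_le_add fun ε hε => ?_
    refine t1_mahler_le _ _ (by positivity) fun x hx => ?_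
    have := hmax x hx
    linarith
  refine ⟨fun i => a i + v i * t, ?_, ?_⟩
  · rw [dist_pi_le_iff hr.le]
    intro i
    rw [dist_eq_norm, add_sub_cancel_left, norm_mul, ht1, mul_one]
    change ‖(s : ℂ) * (b i - a i)‖ ≤ r
    rw [norm_mul, Complex.norm_real, Real.norm_eq_abs, abs_of_pos hs, ← dist_eq_norm, dist_comm]
    have h1 : dist (a i) (b i) ≤ D := (dist_le_pi_dist a b i).trans hab
    calc s * dist (a i) (b i) ≤ s * D := mul_le_mul_of_nonneg_left h1 hs.le
      _ = r := div_mul_cancel₀ r hD.ne'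
  · rw [← ln_eval, ← ln_eval]
    have hPQ : ‖(P * Q).eval t‖ = ‖(ln p a v).eval t‖ * ‖(ln q a v).eval t‖ := by
      rw [eval_mul, norm_mul]
    rw [← hPQ]
    calc ‖MvPolynomial.eval a p‖ * ‖MvPolynomial.eval b q‖
        ≤ P.mahlerMeasure * ((1 + D / r) ^ m * Q.mahlerMeasure) :=
          mul_le_mul hPc hQc (norm_nonneg _) P.mahlerMeasure_nonneg
      _ = (1 + D / r) ^ m * (P * Q).mahlerMeasure := by rw [mahlerMeasure_mul]; ring
      _ ≤ (1 + D / r) ^ m * ‖(P * Q).eval t‖ := mul_le_mul_of_nonneg_left hM (by positivity)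

end H716BM
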