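import Pool.Agent.H716BM.Stmts

set_option autoImplicit false

namespace H716BM

/-- T10 -/
theorem task10 : T10 := by
  intro ι _ _ W
  classical
  let e : (ι → ℂ) ≃ₗ[ℂ] EuclideanSpace ℂ ι := (WithLp.linearEquiv 2 ℂ (ι → ℂ)).symm
  let W' : Submodule ℂ (EuclideanSpace ℂ ι) := W.map e.toLinearMap
  have hfr : Module.finrank ℂ W' = Module.finrank ℂ W := (e.submoduleMap W).finrank_eq.symm
  have hle : Module.finrank ℂ W' ≤ Fintype.card ι := by
    have h1 := Submodule.finrank_le W'
    rwa [finrank_euclideanSpace] at h1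
  obtain ⟨S, -, hS⟩ := Finset.exists_subset_card_eq (s := (Finset.univ : Finset ι)) hle
  let b0 := stdOrthonormalBasis ℂ W'
  have hcard : Fintype.card S = Fintype.card (Fin (Module.finrank ℂ W')) := by
    rw [Fintype.card_coe, hS, Fintype.card_fin]
  let eqv : S ≃ Fin (Module.finrank ℂ W') := Fintype.equivOfCardEq hcard
  let v : ι → EuclideanSpace ℂ ι := fun i =>
    if h : i ∈ S then ((b0 (eqv ⟨i, h⟩) : W') : EuclideanSpace ℂ ι) else 0
  have hv : Orthonormal ℂ ((S : Set ι).domRestrict v) := by
    have h1 : Orthonormal ℂ (fun j : Fin (Module.finrank ℂ W') =>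
        ((b0 j : W') : EuclideanSpace ℂ ι)) :=
      b0.orthonormal.comp_linearIsometry W'.subtypeₗᵢ
    have hinj : Function.Injective (fun i : (S : Set ι) => eqv ⟨i.1, Finset.mem_coe.1 i.2⟩) := by
      intro i j hij
      have h3 := eqv.injective hij
      exact Subtype.ext (congrArg Subtype.val h3)
    have h2 := h1.comp _ hinj
    have h3 : (S : Set ι).domRestrict v = (fun j : Fin (Module.finrank ℂ W') =>
        ((b0 j : W') : EuclideanSpace ℂ ι)) ∘
        (fun i : (S : Set ι) => eqv ⟨i.1, Finset.mem_coe.1 i.2⟩) := by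
      funext i
      have hi : (i : ι) ∈ S := i.2
      simp only [Set.domRestrict_apply, v, Function.comp]
      rw [dif_pos hi]
    rw [h3]
    exact h2
  obtain ⟨b, hb⟩ := hv.exists_orthonormalBasis_extension_of_card_eq
    (by rw [finrank_euclideanSpace])
  refine ⟨(EuclideanSpace.basisFun ι ℂ).toBasis.toMatrix b, S, ?_, ?_, ?_⟩
  · exact OrthonormalBasis.toMatrix_orthonormalBasis_mem_unitary _ _
  · rw [hS, hfr]
  · intro i hi
    have h1 : b i ∈ W' := by
      rw [hb i hi]
      simp only [v]
      rw [dif_pos hi]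
      exact Subtype.mem _
    obtain ⟨w, hw, hwb⟩ := (Submodule.mem_map).1 h1
    have h2 : (fun a => (EuclideanSpace.basisFun ι ℂ).toBasis.toMatrix b a i) = w := by
      funext a
      rw [Module.Basis.toMatrix_apply, ← hwb]
      simp [e]
    rw [h2]
    exact hw

end H716BM
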