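import Pool.Agent.H716BM.Stmts

set_option autoImplicit false

open MeasureTheory Filter Topology

namespace H716BM

namespace Tk12

lemma log_ratio : Tendsto (fun k : ℕ => Real.log ((k : ℝ) + 1) / ((k : ℝ) + 1)) atTop (𝓝 0) := by
  have h1 : Tendsto (fun x : ℝ => Real.log x / x) atTop (𝓝 0) :=
    Real.isLittleO_log_id_atTop.tendsto_div_nhds_zero
  have h2 : Tendsto (fun k : ℕ => (k : ℝ) + 1) atTop atTop :=
    tendsto_atTop_add_const_right _ _ tendsto_natCast_atTop_atTop
  exact h1.comp h2

lemma log_fact (N : ℕ) : Real.log (N.factorial : ℝ) ≤ N * Real.log N := by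
  have h1 : (N.factorial : ℝ) ≤ (N : ℝ) ^ N := by exact_mod_cast Nat.factorial_le_pow N
  have h2 : (0 : ℝ) < N.factorial := by exact_mod_cast Nat.factorial_pos N
  calc Real.log (N.factorial : ℝ) ≤ Real.log ((N : ℝ) ^ N) := Real.log_le_log h2 h1
    _ = N * Real.log N := by rw [Real.log_pow]

theorem main : T6 → T7 → T11 → T12 := by
  intro h6 h7 h11 n K L hn hK hKn hL hBW
  obtain ⟨c1, c2, c3, c4, c5, c6⟩ := h7
  obtain ⟨T, hlow, hsub, ⟨R, hR, hup⟩, hk⟩ := h11 n K L hK hKn hL hBW
  have hTpos : ∀ α, 0 < T α := fun α => (Real.exp_pos _).trans_le (hlow α)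
  set P : ℕ → ℝ := fun k => ∏ b : I n k, T (fun i => (b.1 i : ℕ)) with hPdef
  have hPpos : ∀ k, 0 < P k := fun k => Finset.prod_pos fun b _ => hTpos _
  have hfpos : ∀ k, (0 : ℝ) < ((Fintype.card (I n k)).factorial : ℝ) := fun k => by
    exact_mod_cast Nat.factorial_pos _
  have hVlow : ∀ k, P k ≤ VV n k K := by
    intro k
    obtain ⟨z, hz, hz2⟩ := (hk k).1
    refine hz2.trans ?_
    apply le_csSup
    · refine ⟨((Fintype.card (I n k)).factorial : ℝ) * P k, ?_⟩
      rintro s ⟨z, hz, rfl⟩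
      exact (hk k).2 z hz
    · exact ⟨z, hz, rfl⟩
  have hVup : ∀ k, VV n k K ≤ ((Fintype.card (I n k)).factorial : ℝ) * P k := by
    intro k
    obtain ⟨z, hz, hz2⟩ := (hk k).1
    apply csSup_le
    · exact ⟨_, z, hz, rfl⟩
    · rintro s ⟨z, hz, rfl⟩
      exact (hk k).2 z hz
  have hPlow : ∀ k, Real.exp (-L * ll n k) ≤ P k := by
    intro k
    have e : Real.exp (-L * ll n k) =
        ∏ b : I n k, Real.exp (-L * ∑ i, (((fun i => (b.1 i : ℕ)) i : ℕ) : ℝ)) := by
      rw [← Real.exp_sum]
      congr 1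
      unfold ll
      rw [Finset.mul_sum]
    rw [e]
    apply Finset.prod_le_prod
    · intro b _; exact (Real.exp_pos _).le
    · intro b _; exact hlow _
  refine ⟨fun k => (hPlow k).trans (hVlow k), ?_⟩
  have hVpos : ∀ k, 0 < VV n k K := fun k => (hPpos k).trans_le (hVlow k)
  -- the two limits
  set f : (Fin n → ℕ) → ℝ := fun α => Real.log (T α) + L * ∑ i, (α i : ℝ) with hf
  have hf0 : ∀ α, 0 ≤ f α := by
    intro α
    have := Real.log_le_log (Real.exp_pos _) (hlow α)
    rw [Real.log_exp] at this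
    simp only [hf]
    linarith
  have hfadd : ∀ α β, f (α + β) ≤ f α + f β := by
    intro α β
    have := Real.log_le_log (hTpos _) (hsub α β)
    rw [Real.log_mul (hTpos α).ne' (hTpos β).ne'] at this
    simp only [hf, Pi.add_apply, Nat.cast_add, Finset.sum_add_distrib]
    linarith
  have hfup : ∀ α, f α ≤ (R + L) * ∑ i, (α i : ℝ) := by
    intro α
    have := Real.log_le_log (hTpos _) (hup α)
    rw [Real.log_exp] at this
    simp only [hf]
    linarith
  obtain ⟨Lam, hLam⟩ := h6 n f (R + L) hfadd hf0 hfup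
  obtain ⟨lz, hlz⟩ := h6 n (fun α => ∑ i, (α i : ℝ)) 1 (by
    intro α β
    simp only [Pi.add_apply, Nat.cast_add, Finset.sum_add_distrib]
    exact le_refl _) (fun α => Finset.sum_nonneg fun i _ => Nat.cast_nonneg _) (by
    intro α; rw [one_mul])
  have hlz' : Tendsto (fun k : ℕ => ll n k / (k : ℝ) ^ (n + 1)) atTop (𝓝 lz) := hlz
  have hnn : (0 : ℝ) < (n : ℝ) ^ n := by
    have : (0:ℝ) < n := by exact_mod_cast hn
    positivity
  have hll_low : ∀ k : ℕ, (k : ℝ) ^ (n + 1) ≤ 2 * (n : ℝ) ^ n * ll n k := by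
    intro k
    have h1 := c2 n k hn
    have h2 := c5 n k hn
    have hk0 : (0 : ℝ) ≤ k := Nat.cast_nonneg k
    calc (k : ℝ) ^ (n + 1) = k * (k : ℝ) ^ n := by rw [pow_succ]; ring
      _ ≤ k * ((n : ℝ) ^ n * Fintype.card (I n k)) := mul_le_mul_of_nonneg_left h2 hk0
      _ = (n : ℝ) ^ n * (k * Fintype.card (I n k)) := by ring
      _ ≤ (n : ℝ) ^ n * (2 * ll n k) := mul_le_mul_of_nonneg_left h1 hnn.le
      _ = 2 * (n : ℝ) ^ n * ll n k := by ring
  have hlzpos : 0 < lz := by
    have h1 : 1 / (2 * (n : ℝ) ^ n) ≤ lz := by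
      apply ge_of_tendsto hlz'
      filter_upwards [eventually_ge_atTop 1] with k hk1
      have hk0 : (0 : ℝ) < k := by exact_mod_cast hk1
      rw [div_le_div_iff₀ (by positivity) (by positivity), one_mul]
      have := hll_low k
      linarith
    exact lt_of_lt_of_le (by positivity) h1
  have hLam0 : 0 ≤ Lam := by
    apply ge_of_tendsto hLam
    exact Eventually.of_forall fun k =>
      div_nonneg (Finset.sum_nonneg fun a _ => hf0 _) (by positivity)
  have hllpos : ∀ k : ℕ, 1 ≤ k → 0 < ll n k := by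
    intro k hk1
    have h1 := hll_low k
    have hk0 : (0 : ℝ) < k := by exact_mod_cast hk1
    have h2 : 0 < (k : ℝ) ^ (n + 1) := by positivity
    by_contra hneg
    push Not at hneg
    nlinarith
  -- log P / ll
  have hlogP : ∀ k, ∑ a : I n k, f (fun i => (a.1 i : ℕ)) = Real.log (P k) + L * ll n k := by
    intro k
    simp only [hf, hPdef]
    rw [Real.log_prod (fun b _ => (hTpos _).ne'), Finset.sum_add_distrib]
    unfold ll
    rw [Finset.mul_sum]
  have hlimP : Tendsto (fun k : ℕ => Real.log (P k) / ll n k) atTop (𝓝 (Lam / lz - L)) := by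
    have h1 := (hLam.div hlz' hlzpos.ne').sub_const L
    refine h1.congr' ?_
    filter_upwards [eventually_ge_atTop 1] with k hk1
    have hk0 : (0 : ℝ) < k := by exact_mod_cast hk1
    have hl := hllpos k hk1
    rw [Pi.div_apply]
    rw [hlogP k]
    field_simp
    ring
  have hlimF : Tendsto (fun k : ℕ => Real.log ((Fintype.card (I n k)).factorial : ℝ) / ll n k)
      atTop (𝓝 0) := by
    have hb : Tendsto (fun k : ℕ => 4 * (n : ℝ) * (Real.log ((k : ℝ) + 1) / ((k : ℝ) + 1)))
        atTop (𝓝 0) := by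
      simpa using log_ratio.const_mul (4 * (n : ℝ))
    refine tendsto_of_tendsto_of_tendsto_of_le_of_le' tendsto_const_nhds hb ?_ ?_
    · filter_upwards [eventually_ge_atTop 1] with k hk1
      apply div_nonneg _ (hllpos k hk1).le
      apply Real.log_nonneg
      exact_mod_cast Nat.one_le_iff_ne_zero.mpr (Nat.factorial_ne_zero _)
    · filter_upwards [eventually_ge_atTop 1] with k hk1
      have hk0 : (1 : ℝ) ≤ k := by exact_mod_cast hk1
      have hl := hllpos k hk1
      rw [div_le_iff₀ hl]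
      have hN1 : (1 : ℝ) ≤ (Fintype.card (I n k) : ℝ) := by exact_mod_cast c6 n k
      have hNk : (Fintype.card (I n k) : ℝ) ≤ ((k : ℝ) + 1) ^ n := by exact_mod_cast c1 n k
      have hlogN : Real.log (Fintype.card (I n k) : ℝ) ≤ n * Real.log ((k : ℝ) + 1) := by
        rw [← Real.log_pow]
        exact Real.log_le_log (by linarith) hNk
      have hlk : 0 ≤ Real.log ((k : ℝ) + 1) := Real.log_nonneg (by linarith)
      have h1 := c2 n k hn
      have hNl : (Fintype.card (I n k) : ℝ) ≤ 4 * ll n k / ((k : ℝ) + 1) := by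
        rw [le_div_iff₀ (by linarith)]
        nlinarith
      calc Real.log ((Fintype.card (I n k)).factorial : ℝ)
          ≤ (Fintype.card (I n k) : ℝ) * Real.log (Fintype.card (I n k) : ℝ) := log_fact _
        _ ≤ (Fintype.card (I n k) : ℝ) * (n * Real.log ((k : ℝ) + 1)) :=
            mul_le_mul_of_nonneg_left hlogN (by linarith)
        _ ≤ (4 * ll n k / ((k : ℝ) + 1)) * (n * Real.log ((k : ℝ) + 1)) :=
            mul_le_mul_of_nonneg_right hNl (mul_nonneg (Nat.cast_nonneg n) hlk)
        _ = 4 * (n : ℝ) * (Real.log ((k : ℝ) + 1) / ((k : ℝ) + 1)) * ll n k := by ring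
  have hlimV : Tendsto (fun k : ℕ => Real.log (VV n k K) / ll n k) atTop (𝓝 (Lam / lz - L)) := by
    have hsum : Tendsto (fun k : ℕ => Real.log ((Fintype.card (I n k)).factorial : ℝ) / ll n k +
        Real.log (P k) / ll n k) atTop (𝓝 (Lam / lz - L)) := by
      simpa using hlimF.add hlimP
    refine tendsto_of_tendsto_of_tendsto_of_le_of_le' hlimP hsum ?_ ?_
    · filter_upwards [eventually_ge_atTop 1] with k hk1
      have hl := hllpos k hk1
      apply div_le_div_of_nonneg_right _ hl.le
      exact Real.log_le_log (hPpos k) (hVlow k)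
    · filter_upwards [eventually_ge_atTop 1] with k hk1
      have hl := hllpos k hk1
      rw [← add_div]
      apply div_le_div_of_nonneg_right _ hl.le
      rw [← Real.log_mul (hfpos k).ne' (hPpos k).ne']
      exact Real.log_le_log (hVpos k) (hVup k)
  refine ⟨Real.exp (Lam / lz - L), ?_, ?_⟩
  · apply Real.exp_le_exp.mpr
    have : 0 ≤ Lam / lz := div_nonneg hLam0 hlzpos.le
    linarith
  · have h1 := (Real.continuous_exp.tendsto (Lam / lz - L)).comp hlimV
    refine h1.congr fun k => ?_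
    simp only [Function.comp]
    rw [Real.rpow_def_of_pos (hVpos k)]
    congr 1
    rw [mul_one_div]

end Tk12

theorem task12 : T6 → T7 → T11 → T12 := Tk12.main

end H716BM
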