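import Pool.Agent.H716BM.Stmts

set_option autoImplicit false

open MeasureTheory Filter Topology

namespace H716BM

theorem t13_log (n κ c Q : ℝ) (hn : 0 < n) (hκ : 0 < κ) (hQ : 0 < Q) :
    ∃ ρ1 : ℝ, ∀ ρ, ρ1 ≤ ρ → 4 * n * Real.log (κ * ρ + 1) + Real.log c ≤ ρ / (4 * Q) := by
  have h1 : Tendsto (fun ρ : ℝ => κ * ρ + 1) atTop atTop :=
    tendsto_atTop_add_const_right _ _ (tendsto_id.const_mul_atTop hκ)
  have h2 := Real.isLittleO_log_id_atTop.comp_tendsto h1
  set e : ℝ := 1 / (32 * n * κ * Q) with he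
  have hepos : 0 < e := by positivity
  have h3 := h2.def hepos
  obtain ⟨ρ1, h4⟩ := eventually_atTop.1 h3
  refine ⟨max (max ρ1 0) ((4 * n * e + Real.log c) * (8 * Q)), fun ρ hρ => ?_⟩
  have hρ1 : ρ1 ≤ ρ := (le_max_left _ _).trans ((le_max_left _ _).trans hρ)
  have hρ0 : 0 ≤ ρ := (le_max_right _ _).trans ((le_max_left _ _).trans hρ)
  have hρ2 : (4 * n * e + Real.log c) * (8 * Q) ≤ ρ := (le_max_right _ _).trans hρ
  have h5 := h4 ρ hρ1
  simp only [Function.comp, id] at h5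
  have h6 : Real.log (κ * ρ + 1) ≤ e * (κ * ρ + 1) := by
    refine (le_abs_self _).trans ?_
    rw [← Real.norm_eq_abs]
    refine h5.trans (le_of_eq ?_)
    rw [Real.norm_eq_abs, abs_of_nonneg (by positivity)]
  have h7 : 4 * n * Real.log (κ * ρ + 1) ≤ 4 * n * (e * (κ * ρ + 1)) :=
    mul_le_mul_of_nonneg_left h6 (by positivity)
  have h8 : 4 * n * (e * (κ * ρ + 1)) = ρ / (8 * Q) + 4 * n * e := by
    rw [he]
    field_simp
    ring
  have h9 : 4 * n * e + Real.log c ≤ ρ / (8 * Q) := by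
    rw [le_div_iff₀ (by positivity)]
    exact hρ2
  have h10 : ρ / (4 * Q) = ρ / (8 * Q) + ρ / (8 * Q) := by
    field_simp
    ring
  rw [h10]
  linarith

theorem t13_bound (N M k q n : ℕ) (κ c ρ l Q : ℝ) (hN : 1 ≤ N) (hn : 1 ≤ n) (hκ : 0 < κ) (hc : 1 ≤ c)
    (hρ : 0 < ρ) (hQ : Q = (q : ℝ) ^ n) (hq : 1 ≤ q)
    (hNk : N ≤ (k + 1) ^ n) (hk : (k : ℝ) ≤ κ * ρ) (hNM : N ≤ q ^ n * M) (hl : l ≤ k * N)
    (hlog : 4 * n * Real.log (κ * ρ + 1) + Real.log c ≤ ρ / (4 * Q)) :
    ((N.factorial : ℝ)) ^ 2 * ((N : ℝ) ^ 2 * c) ^ N * Real.exp (-(ρ / 2)) ^ M ≤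
      Real.exp (-(l / (4 * κ * Q))) := by
  have hNr : (1 : ℝ) ≤ N := by exact_mod_cast hN
  have hN0 : (0 : ℝ) < N := by linarith
  have hqr : (1 : ℝ) ≤ q := by exact_mod_cast hq
  have hQpos : 0 < Q := by rw [hQ]; positivity
  have h1 : (N.factorial : ℝ) ≤ Real.exp (N * Real.log N) := by
    have : (N.factorial : ℝ) ≤ (N : ℝ) ^ N := by exact_mod_cast Nat.factorial_le_pow N
    refine this.trans (le_of_eq ?_)
    rw [← Real.exp_log (pow_pos hN0 N), Real.log_pow]
  have h2 : ((N : ℝ) ^ 2 * c) ^ N = Real.exp (N * (2 * Real.log N + Real.log c)) := by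
    rw [← Real.exp_log (show (0 : ℝ) < ((N : ℝ) ^ 2 * c) ^ N by positivity), Real.log_pow,
      Real.log_mul (by positivity) (by positivity), Real.log_pow]
    push_cast
    rfl
  have h3 : Real.exp (-(ρ / 2)) ^ M = Real.exp (-(M * (ρ / 2))) := by
    rw [← Real.exp_nat_mul]
    congr 1
    ring
  have hlogN : Real.log N ≤ n * Real.log (κ * ρ + 1) := by
    have h4 : (N : ℝ) ≤ (κ * ρ + 1) ^ n := by
      have h5 : (N : ℝ) ≤ ((k : ℝ) + 1) ^ n := by exact_mod_cast hNk
      exact h5.trans (pow_le_pow_left₀ (by positivity) (by linarith) n)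
    rw [← Real.log_pow]
    exact Real.log_le_log hN0 h4
  have hM : (N : ℝ) / Q ≤ M := by
    rw [div_le_iff₀ hQpos, hQ, mul_comm]
    exact_mod_cast hNM
  have hlk : l / κ ≤ N * ρ := by
    rw [div_le_iff₀ hκ]
    refine hl.trans ?_
    nlinarith
  rw [h2, h3]
  calc (N.factorial : ℝ) ^ 2 * Real.exp (N * (2 * Real.log N + Real.log c)) *
        Real.exp (-(M * (ρ / 2)))
      ≤ Real.exp (N * Real.log N) ^ 2 * Real.exp (N * (2 * Real.log N + Real.log c)) *
        Real.exp (-(M * (ρ / 2))) := by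
          gcongr
    _ = Real.exp (2 * (N * Real.log N) + N * (2 * Real.log N + Real.log c) + -(M * (ρ / 2))) := by
          have h4 : Real.exp (N * Real.log N) ^ 2 = Real.exp (2 * (N * Real.log N)) := by
            rw [← Real.exp_nat_mul]
            push_cast
            rfl
          rw [Real.exp_add, Real.exp_add, h4]
    _ ≤ Real.exp (-(l / (4 * κ * Q))) := by
          apply Real.exp_le_exp.2
          have h5 : (N : ℝ) * (4 * Real.log N + Real.log c) ≤ N * (ρ / (4 * Q)) := by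
            apply mul_le_mul_of_nonneg_left _ hN0.le
            nlinarith
          have h6 : (N : ℝ) / Q * (ρ / 2) ≤ M * (ρ / 2) :=
            mul_le_mul_of_nonneg_right hM (by positivity)
          have h7 : l / (4 * κ * Q) ≤ N * ρ / (4 * Q) := by
            have : l / (4 * κ * Q) = l / κ / (4 * Q) := by
              field_simp
            rw [this]
            exact div_le_div_of_nonneg_right hlk (by positivity)
          have h8 : (N : ℝ) / Q * (ρ / 2) = N * ρ / (4 * Q) + N * (ρ / (4 * Q)) := by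
            field_simp
            ring
          linarith

theorem task13 : T7 → T13 := by
  rintro ⟨t1, t2, t3, t4, t5, t6⟩ n V Z d L δ κ c hn hδ hκ hc hV hZ hVd hZd H
  have hll : ∀ k : ℕ, 1 ≤ k → 0 < ll n k := by
    intro k hk
    have h1 := t2 n k hn
    have h2 : (1 : ℝ) ≤ Fintype.card (I n k) := by exact_mod_cast t6 n k
    have h3 : (1 : ℝ) ≤ k := by exact_mod_cast hk
    nlinarith
  have hVpos : ∀ k, 0 < V k := fun k => (Real.exp_pos _).trans_le (hV k)
  have hd : Real.exp (-L) ≤ d := by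
    refine ge_of_tendsto hVd ?_
    filter_upwards [eventually_ge_atTop 1] with k hk
    have h1 := Real.rpow_le_rpow (Real.exp_pos _).le (hV k)
      (show (0 : ℝ) ≤ 1 / ll n k by have := hll k hk; positivity)
    rw [← Real.exp_mul] at h1
    have h2 : -L * ll n k * (1 / ll n k) = -L := by
      have := (hll k hk).ne'
      field_simp
    rwa [h2] at h1
  have hdpos : 0 < d := (Real.exp_pos _).trans_le hd
  set q : ℕ := ⌈2 * κ / δ⌉₊ + 1 with hq
  set Q : ℝ := (q : ℝ) ^ n with hQ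
  have hqpos : (0 : ℝ) < q := by positivity
  have hQpos : 0 < Q := by positivity
  set c3 : ℝ := 1 / (8 * κ * Q) with hc3
  have hc3pos : 0 < c3 := by positivity
  have hlim : Tendsto (fun k : ℕ => Z k ^ ((1 : ℝ) / (2 * ll n k)) -
      V k ^ ((1 : ℝ) / ll n k) * Real.exp (-c3)) atTop (𝓝 (d - d * Real.exp (-c3))) :=
    hZd.sub (hVd.mul_const _)
  have hpos : 0 < d - d * Real.exp (-c3) := by
    have : Real.exp (-c3) < 1 := by
      rw [Real.exp_lt_one_iff]
      linarith
    nlinarith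
  obtain ⟨k0, hk0⟩ := eventually_atTop.1 (hlim.eventually (lt_mem_nhds hpos))
  obtain ⟨ρ1, hρ1⟩ := t13_log n κ c Q (by exact_mod_cast hn) hκ hQpos
  obtain ⟨ρ, hρ, k, m, hm, hmk, hk, hZk⟩ := H (max (max ρ1 (2 / δ)) ((k0 + 2) / δ))
  have hρa : ρ1 ≤ ρ := (le_max_left _ _).trans ((le_max_left _ _).trans hρ)
  have hρb : 2 / δ ≤ ρ := (le_max_right _ _).trans ((le_max_left _ _).trans hρ)
  have hρc : (k0 + 2) / δ ≤ ρ := (le_max_right _ _).trans hρ
  rw [div_le_iff₀ hδ] at hρb hρc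
  have hρpos : 0 < ρ := by
    by_contra h
    push Not at h
    nlinarith
  have hmk' : (m : ℝ) ≤ k := by exact_mod_cast hmk
  have hkk0 : k0 + 1 ≤ k := by
    have : ((k0 + 1 : ℕ) : ℝ) ≤ k := by
      push_cast
      linarith
    exact_mod_cast this
  have hkq : k ≤ q * m := by
    have h1 : (2 * κ / δ : ℝ) ≤ q := by
      rw [hq]
      push_cast
      have := Nat.le_ceil (2 * κ / δ)
      linarith
    have h2 : (k : ℝ) ≤ q * m := by
      have h3 : δ * ρ / 2 ≤ m := by linarith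
      calc (k : ℝ) ≤ κ * ρ := hk
        _ = 2 * κ / δ * (δ * ρ / 2) := by field_simp
        _ ≤ q * m := mul_le_mul h1 h3 (by positivity) hqpos.le
    exact_mod_cast h2
  have hb := t13_bound (Fintype.card (I n k)) (Fintype.card (I n m)) k q n κ c ρ (ll n k) Q
    (t6 n k) hn hκ hc hρpos hQ (by omega) (t1 n k) hk (t4 n m k q (by omega) hkq) (t3 n k)
    (hρ1 ρ hρa)
  have hlk := hll k (by omega)
  have hkey : Z k ^ ((1 : ℝ) / (2 * ll n k)) ≤ V k ^ ((1 : ℝ) / ll n k) * Real.exp (-c3) := by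
    have h1 : Z k ≤ V k ^ 2 * Real.exp (-(ll n k / (4 * κ * Q))) := by
      refine hZk.trans ?_
      rw [mul_assoc, mul_assoc, ← mul_assoc (((Fintype.card (I n k)).factorial : ℝ) ^ 2)]
      exact mul_le_mul_of_nonneg_left hb (by positivity)
    have h2 := Real.rpow_le_rpow (hZ k) h1 (show (0 : ℝ) ≤ 1 / (2 * ll n k) by positivity)
    refine h2.trans (le_of_eq ?_)
    rw [Real.mul_rpow (by positivity) (Real.exp_pos _).le, ← Real.exp_mul, ← Real.rpow_natCast,
      ← Real.rpow_mul (hVpos k).le]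
    congr 1
    · congr 1
      push_cast
      field_simp
    · congr 1
      rw [hc3]
      field_simp
      ring
  have := hk0 k (by omega)
  linarith

end H716BM
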