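import Pool.Agent.H716BM.Stmts

/-! Task14 of project H716-BM (helper510): asymptotics of `Z` under Bernstein-Markov. -/

set_option autoImplicit false

open MeasureTheory Filter Topology

namespace H716BM

namespace T14X

theorem pow_rpow_aux {x : ℝ} (hx : 0 ≤ x) (N : ℕ) (p : ℝ) : (x ^ N) ^ p = x ^ ((N : ℝ) * p) := by
  rw [← Real.rpow_natCast, ← Real.rpow_mul hx]

theorem pow_rpow_aux_nat {x : ℝ} (hx : 0 ≤ x) {M : ℕ} {q : ℝ} : (x ^ M) ^ q = x ^ ((M : ℝ) * q) :=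
  pow_rpow_aux hx M q

theorem tend_one {c : ℝ} (hc : 0 < c) :
    Tendsto (fun k : ℕ => c ^ ((1 : ℝ) / k)) atTop (𝓝 1) := by
  have h : Tendsto (fun k : ℕ => c ^ ((1 : ℝ) / k)) atTop (𝓝 (c ^ (0:ℝ))) :=
    (tendsto_const_nhds (x := c)).rpow tendsto_one_div_atTop_nhds_zero_nat (Or.inl hc.ne')
  rwa [Real.rpow_zero] at h

theorem exists_eps {a d : ℝ} (h : a < d) : ∃ ε : ℝ, 0 < ε ∧ a < d / (1 + ε) ^ 2 := by
  have h1 : Tendsto (fun ε : ℝ => d / (1 + ε) ^ 2) (𝓝[>] 0) (𝓝 d) := by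
    have h2 : ContinuousAt (fun ε : ℝ => d / (1 + ε) ^ 2) 0 := by
      apply ContinuousAt.div continuousAt_const (by fun_prop)
      norm_num
    have h3 : Tendsto (fun ε : ℝ => d / (1 + ε) ^ 2) (𝓝 0) (𝓝 (d / (1 + 0) ^ 2)) := h2
    have h4 : d / (1 + 0) ^ 2 = d := by norm_num
    rw [h4] at h3
    exact h3.mono_left nhdsWithin_le_nhds
  have h5 := (h1.eventually (lt_mem_nhds h)).and self_mem_nhdsWithin
  obtain ⟨ε, h6, h7⟩ := h5.exists
  exact ⟨ε, h7, h6⟩

end T14X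

open T14X in
theorem task14 : T7 → T14 := by
  rintro ⟨-, h72, h73, -, -, h76⟩
  intro n V Z d L c hn hc hd hV hZ hVd hup hlow
  have hV0 : ∀ k, 0 < V k := fun k => lt_of_lt_of_le (Real.exp_pos _) (hV k)
  have hll : ∀ k : ℕ, 1 ≤ k → 0 < ll n k := by
    intro k hk
    have h1 := h72 n k hn
    have h2 : (1:ℝ) ≤ Fintype.card (I n k) := by exact_mod_cast h76 n k
    have h3 : (1:ℝ) ≤ k := by exact_mod_cast hk
    nlinarith
  have hN1 : ∀ k : ℕ, 1 ≤ k → (Fintype.card (I n k) : ℝ) * (1 / (2 * ll n k)) ≤ 1 / k := by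
    intro k hk
    have h1 := h72 n k hn
    have h2 := hll k hk
    have h3 : (0:ℝ) < k := by exact_mod_cast hk
    rw [mul_one_div, div_le_div_iff₀ (by positivity) h3]
    linarith
  have hN2 : ∀ k : ℕ, 1 ≤ k → ((2 * k : ℕ) : ℝ) * ((Fintype.card (I n k) : ℝ) * (1 / (2 * ll n k))) ≤ 2 := by
    intro k hk
    have h1 := hN1 k hk
    have h3 : (0:ℝ) < k := by exact_mod_cast hk
    have h4 := mul_le_mul_of_nonneg_left h1 (by positivity : (0:ℝ) ≤ ((2 * k : ℕ) : ℝ))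
    refine h4.trans (le_of_eq ?_)
    push_cast
    field_simp
  have hVp : ∀ k : ℕ, 1 ≤ k → (V k ^ 2) ^ (1 / (2 * ll n k)) = V k ^ ((1:ℝ) / ll n k) := by
    intro k hk
    rw [pow_rpow_aux (hV0 k).le]
    congr 1
    have := hll k hk
    push_cast
    field_simp
  have hp : ∀ k : ℕ, 1 ≤ k → 0 ≤ 1 / (2 * ll n k) := by
    intro k hk
    have := hll k hk
    positivity
  have hc0 : 0 < c := by linarith
  -- upper bound
  have hupper : ∀ k : ℕ, 1 ≤ k →
      Z k ^ ((1:ℝ) / (2 * ll n k)) ≤ V k ^ ((1:ℝ) / ll n k) * c ^ ((1:ℝ) / k) := by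
    intro k hk
    have h1 := Real.rpow_le_rpow (hZ k) (hup k) (hp k hk)
    refine h1.trans ?_
    rw [Real.mul_rpow (by positivity) (by positivity), hVp k hk, pow_rpow_aux hc0.le]
    apply mul_le_mul_of_nonneg_left _ (Real.rpow_nonneg (hV0 k).le _)
    exact Real.rpow_le_rpow_of_exponent_le hc (hN1 k hk)
  -- lower bound
  have hlower : ∀ ε : ℝ, 0 < ε → ∃ C : ℝ, 1 ≤ C ∧ ∀ k : ℕ, 1 ≤ k →
      V k ^ ((1:ℝ) / ll n k) / (C ^ ((1:ℝ) / k) * (1 + ε) ^ 2) ≤ Z k ^ ((1:ℝ) / (2 * ll n k)) := by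
    intro ε hε
    obtain ⟨C, hC, hCk⟩ := hlow ε hε
    refine ⟨max C 1, le_max_right _ _, ?_⟩
    intro k hk
    have hC' : 0 < max C 1 := lt_of_lt_of_le one_pos (le_max_right _ _)
    have h1e : (1:ℝ) ≤ 1 + ε := by linarith
    have h0e : (0:ℝ) < 1 + ε := by linarith
    rw [div_le_iff₀ (by positivity)]
    have h1 : V k ^ 2 ≤ ((max C 1) * (1 + ε) ^ (2 * k)) ^ (Fintype.card (I n k)) * Z k := by
      refine (hCk k).trans ?_
      apply mul_le_mul_of_nonneg_right _ (hZ k)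
      apply pow_le_pow_left₀ (by positivity)
      exact mul_le_mul_of_nonneg_right (le_max_left _ _) (by positivity)
    have h2 := Real.rpow_le_rpow (by positivity) h1 (hp k hk)
    rw [hVp k hk] at h2
    refine h2.trans ?_
    rw [Real.mul_rpow (by positivity) (hZ k), mul_comm]
    apply mul_le_mul_of_nonneg_left _ (Real.rpow_nonneg (hZ k) _)
    rw [mul_pow, Real.mul_rpow (by positivity) (by positivity), pow_rpow_aux hC'.le,
      pow_rpow_aux (by positivity : (0:ℝ) ≤ (1 + ε) ^ (2 * k)), pow_rpow_aux_nat h0e.le]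
    apply mul_le_mul
    · exact Real.rpow_le_rpow_of_exponent_le (le_max_right _ _) (hN1 k hk)
    · have h3 := Real.rpow_le_rpow_of_exponent_le h1e (hN2 k hk)
      rw [Real.rpow_two] at h3
      exact h3
    · positivity
    · positivity
  rw [tendsto_order]
  constructor
  · intro a ha
    obtain ⟨ε, hε, hae⟩ := exists_eps ha
    obtain ⟨C, hC, hCk⟩ := hlower ε hε
    have h0e : (0:ℝ) < (1 + ε) ^ 2 := by positivity
    have h1 : Tendsto (fun k : ℕ => V k ^ ((1:ℝ) / ll n k) / (C ^ ((1:ℝ) / k) * (1 + ε) ^ 2)) atTop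
        (𝓝 (d / (1 * (1 + ε) ^ 2))) := by
      apply hVd.div
      · exact (tend_one (by linarith)).mul tendsto_const_nhds
      · rw [one_mul]; exact h0e.ne'
    rw [one_mul] at h1
    filter_upwards [h1.eventually (lt_mem_nhds hae), eventually_ge_atTop 1] with k hk1 hk2
    exact lt_of_lt_of_le hk1 (hCk k hk2)
  · intro b hb
    have h1 : Tendsto (fun k : ℕ => V k ^ ((1:ℝ) / ll n k) * c ^ ((1:ℝ) / k)) atTop (𝓝 (d * 1)) :=
      hVd.mul (tend_one hc0)
    rw [mul_one] at h1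
    filter_upwards [h1.eventually (gt_mem_nhds hb), eventually_ge_atTop 1] with k hk1 hk2
    exact lt_of_le_of_lt (hupper k hk2) hk1

end H716BM
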