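import Mathlib
import Pool.Agent.H716BM.Stmts

set_option autoImplicit false

open MeasureTheory Filter Topology

namespace H716BM

namespace T16aux

lemma cont_det (n k : ℕ) : Continuous fun z : I n k → (Fin n → ℂ) => ‖Matrix.det (E z)‖ := by
  refine continuous_norm.comp ?_
  refine Continuous.matrix_det ?_
  refine continuous_matrix fun a b => ?_
  simp only [E, Matrix.of_apply]
  fun_prop

lemma E_update {n k : ℕ} (x : I n k → (Fin n → ℂ)) (a : I n k) (y : Fin n → ℂ) :
    E (Function.update x a y) = (E x).updateRow a (fun b => ∏ i, y i ^ ((b.1 i : ℕ))) := by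
  ext a' b
  by_cases h : a' = a
  · subst h
    simp [E]
  · simp [E, Matrix.updateRow_apply, h]

lemma det_update {n k : ℕ} (x : I n k → (Fin n → ℂ)) (a : I n k) :
    ∃ c : I n k → ℂ, ∀ y : Fin n → ℂ, Matrix.det (E (Function.update x a y)) =
      ∑ b : I n k, c b * ∏ i, y i ^ ((b.1 i : ℕ)) := by
  refine ⟨fun b => Matrix.cramer (E x).transpose (fun j => if b = j then 1 else 0) a, fun y => ?_⟩
  rw [E_update, ← Matrix.cramer_transpose_apply, LinearMap.pi_apply_eq_sum_univ
    (Matrix.cramer (E x).transpose), Finset.sum_apply]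
  refine Finset.sum_congr rfl fun b _ => ?_
  rw [Pi.smul_apply, smul_eq_mul, mul_comm]

end T16aux

open T16aux

theorem task16 : T9 → T17 → T16 := by
  intro h9 h17 n K ν _ hK hKne hν
  have hset : ∀ k : ℕ, {s : ℝ | ∃ z : I n k → (Fin n → ℂ), (∀ a, z a ∈ K) ∧
      s = ‖Matrix.det (E z)‖} =
      (fun z : I n k → (Fin n → ℂ) => ‖Matrix.det (E z)‖) '' (Set.univ.pi fun _ => K) := by
    intro k
    ext s
    constructor
    · rintro ⟨z, hz, rfl⟩
      exact ⟨z, fun a _ => hz a, rfl⟩
    · rintro ⟨z, hz, rfl⟩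
      exact ⟨z, fun a => hz a (Set.mem_univ a), rfl⟩
  have hcomp : ∀ k : ℕ, IsCompact {s : ℝ | ∃ z : I n k → (Fin n → ℂ), (∀ a, z a ∈ K) ∧
      s = ‖Matrix.det (E z)‖} := by
    intro k
    rw [hset k]
    exact (isCompact_univ_pi fun _ => hK).image (cont_det n k)
  have hne : ∀ k : ℕ, {s : ℝ | ∃ z : I n k → (Fin n → ℂ), (∀ a, z a ∈ K) ∧
      s = ‖Matrix.det (E z)‖}.Nonempty := by
    intro k
    obtain ⟨x, hx⟩ := hKne
    exact ⟨_, fun _ => x, fun _ => hx, rfl⟩
  have hle : ∀ k : ℕ, ∀ z : I n k → (Fin n → ℂ), (∀ a, z a ∈ K) →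
      ‖Matrix.det (E z)‖ ≤ VV n k K := by
    intro k z hz
    exact le_csSup (hcomp k).bddAbove ⟨z, hz, rfl⟩
  have hmem : ∀ᵐ x ∂ν, x ∈ K := by
    rw [ae_iff]; exact hν
  refine ⟨?_, ?_⟩
  · intro k
    have hae : ∀ᵐ z ∂(Measure.pi fun _ : I n k => ν), ∀ a, z a ∈ K := by
      rw [ae_all_iff]
      intro a
      exact (Measure.quasiMeasurePreserving_eval (fun _ : I n k => ν) a).ae hmem
    have h1 : ZZ n k ν ≤ ∫ _z, VV n k K ^ 2 ∂(Measure.pi fun _ : I n k => ν) := by
      unfold ZZ
      refine integral_mono_of_nonneg (Eventually.of_forall fun z => by positivity)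
        (integrable_const _) ?_
      filter_upwards [hae] with z hz
      exact pow_le_pow_left₀ (norm_nonneg _) (hle k z hz) 2
    refine h1.trans ?_
    rw [integral_const, smul_eq_mul, mul_comm]
    refine mul_le_mul_of_nonneg_left ?_ (by positivity)
    rw [Measure.real, Measure.pi_univ, Finset.prod_const, ENNReal.toReal_pow, Finset.card_univ]
    exact pow_le_pow_left₀ ENNReal.toReal_nonneg (by linarith) _
  · intro hBM ε hε
    obtain ⟨C, hC⟩ := hBM ε hε
    refine ⟨max C 1, lt_of_lt_of_le one_pos (le_max_right _ _), ?_⟩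
    intro k
    have hA : 0 ≤ max C 1 * (1 + ε) ^ (2 * k) :=
      mul_nonneg (le_trans zero_le_one (le_max_right _ _)) (by positivity)
    have key := h9 n (I n k) K ν (fun x => ‖Matrix.det (E x)‖ ^ 2) (max C 1 * (1 + ε) ^ (2 * k)) hK
      hν ((cont_det n k).pow 2) (fun x => by positivity) hA (by
        intro x hx a
        obtain ⟨c, hc⟩ := det_update x a
        obtain ⟨p, hp, hp2, -⟩ := (h17 n k).2 c
        have hpe : ∀ y, MvPolynomial.eval y p = Matrix.det (E (Function.update x a y)) := by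
          intro y; rw [hp2, hc]
        have h2 := hC k p hp (x a) (hx a)
        rw [hpe, Function.update_eq_self] at h2
        simp only [hpe] at h2
        refine h2.trans ?_
        refine mul_le_mul_of_nonneg_right ?_ (integral_nonneg fun y => by positivity)
        exact mul_le_mul_of_nonneg_right (le_max_left _ _) (by positivity))
    have hsup : VV n k K ∈ {s : ℝ | ∃ z : I n k → (Fin n → ℂ), (∀ a, z a ∈ K) ∧
      s = ‖Matrix.det (E z)‖} := (hcomp k).sSup_mem (hne k)
    obtain ⟨z, hz, hzV⟩ := hsup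
    rw [hzV]
    exact key z hz

end H716BM
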