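import Mathlib
import Pool.Agent.H716BM.Stmts

/-! Project H716-BM, task 17 (helper589). -/

set_option autoImplicit false

namespace H716BM

/-- the exponent as a finitely supported function -/
noncomputable def t17e {n k : ℕ} (b : I n k) : Fin n →₀ ℕ :=
  Finsupp.equivFunOnFinite.symm (fun i => (b.1 i : ℕ))

lemma t17e_apply {n k : ℕ} (b : I n k) (i : Fin n) : t17e b i = (b.1 i : ℕ) := rfl

lemma t17e_inj {n k : ℕ} : Function.Injective (t17e (n := n) (k := k)) := by
  intro a b h
  apply Subtype.ext
  funext i
  apply Fin.ext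
  have := DFunLike.congr_fun h i
  simpa [t17e_apply] using this

lemma t17e_surj {n k : ℕ} (d : Fin n →₀ ℕ) (hd : ∑ i, d i ≤ k) : ∃ b : I n k, t17e b = d := by
  have hi : ∀ i, d i < k + 1 := fun i => by
    have := Finset.single_le_sum (f := fun i => d i) (fun _ _ => Nat.zero_le _) (Finset.mem_univ i)
    omega
  refine ⟨⟨fun i => ⟨d i, hi i⟩, hd⟩, ?_⟩
  ext i
  rfl

theorem task17 : T17 := by
  classical
  intro n k
  constructor
  · intro p hp
    refine ⟨fun b => p.coeff (t17e b), fun x => ?_⟩
    rw [MvPolynomial.eval_eq']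
    have h1 : ∑ b : I n k, p.coeff (t17e b) * ∏ i, x i ^ ((b.1 i : ℕ))
        = ∑ d ∈ (Finset.univ : Finset (I n k)).image t17e, p.coeff d * ∏ i, x i ^ d i := by
      rw [Finset.sum_image (fun a _ b _ h => t17e_inj h)]
      rfl
    rw [h1]
    apply Finset.sum_subset
    · intro d hd
      have h2 : ∑ i, d i ≤ k := by
        have h3 := MvPolynomial.le_totalDegree hd
        rw [Finsupp.sum_fintype _ _ (fun _ => rfl)] at h3
        exact h3.trans hp
      obtain ⟨b, hb⟩ := t17e_surj d h2
      exact Finset.mem_image.2 ⟨b, Finset.mem_univ _, hb⟩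
    · intro d _ hd
      rw [MvPolynomial.notMem_support_iff.1 hd, zero_mul]
  · intro c
    refine ⟨∑ b : I n k, MvPolynomial.monomial (t17e b) (c b), ?_, ?_, ?_⟩
    · refine (MvPolynomial.totalDegree_finsetSum _ _).trans ?_
      apply Finset.sup_le
      intro b _
      refine (MvPolynomial.totalDegree_monomial_le _ _).trans ?_
      rw [Finsupp.sum_fintype _ _ (fun _ => rfl)]
      exact b.2
    · intro x
      rw [map_sum]
      apply Finset.sum_congr rfl
      intro b _
      rw [MvPolynomial.eval_monomial, Finsupp.prod_fintype _ _ (fun _ => pow_zero _)]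
      rfl
    · intro h
      funext b
      have h2 := congrArg (MvPolynomial.coeff (t17e b)) h
      rw [MvPolynomial.coeff_sum, MvPolynomial.coeff_zero, Finset.sum_eq_single b] at h2
      · rw [MvPolynomial.coeff_monomial, if_pos rfl] at h2
        exact h2
      · intro b' _ hb'
        rw [MvPolynomial.coeff_monomial, if_neg (fun h3 => hb' (t17e_inj h3))]
      · intro h3
        exact absurd (Finset.mem_univ _) h3

end H716BM
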