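import Pool.Agent.H716BM.Stmts2

/-!
Task 18 of H716BM: interpolation at Fekete points.
-/

set_option autoImplicit false

open MeasureTheory Filter Topology
open scoped Matrix

namespace H716BM

theorem task18_det {n k : ℕ} (ξ : I n k → (Fin n → ℂ)) (c : I n k) (x : Fin n → ℂ)
    (hM : Matrix.det (E ξ) ≠ 0) :
    Matrix.det (E (Function.update ξ c x)) =
      Matrix.det (E ξ) * ∑ b : I n k, (∏ i, x i ^ ((b.1 i : ℕ))) * (E ξ)⁻¹ b c := by
  have h1 : E (Function.update ξ c x) =
      (E ξ).updateRow c (fun b : I n k => ∏ i, x i ^ ((b.1 i : ℕ))) := by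
    ext a b
    rw [Matrix.updateRow_apply]
    by_cases h : a = c
    · subst h
      simp [E]
    · simp [E, h]
  have hu : IsUnit (Matrix.det (E ξ)) := isUnit_iff_ne_zero.2 hM
  have h2 : (E ξ).adjugate = Matrix.det (E ξ) • (E ξ)⁻¹ := by
    rw [Matrix.inv_def, smul_smul, Ring.mul_inverse_cancel _ hu, one_smul]
  rw [h1, ← Matrix.cramer_transpose_apply, Matrix.cramer_eq_adjugate_mulVec,
    ← Matrix.adjugate_transpose, h2, Matrix.mulVec, dotProduct, Finset.mul_sum]
  apply Finset.sum_congr rfl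
  intro b _
  simp only [Matrix.transpose_apply, Matrix.smul_apply, smul_eq_mul]
  ring

theorem task18 : T17 → T18 := by
  intro h17 n k K ξ U hU hξ hmax hpos
  have hM : Matrix.det (E ξ) ≠ 0 := by
    intro h
    rw [h, norm_zero] at hpos
    exact lt_irrefl _ hpos
  have hu : IsUnit (Matrix.det (E ξ)) := isUnit_iff_ne_zero.2 hM
  choose f hf1 hf2 hf3 using fun i : I n k => (h17 n k).2 (fun b => ((E ξ)⁻¹ * U) b i)
  refine ⟨f, hf1, ?_, ?_, ?_⟩
  · intro i x hx
    have hl : ∀ c : I n k,
        ‖∑ b : I n k, (∏ j, x j ^ ((b.1 j : ℕ))) * (E ξ)⁻¹ b c‖ ≤ 1 := by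
      intro c
      have h1 := hmax (Function.update ξ c x) (by
        intro a
        by_cases h : a = c
        · subst h; simpa using hx
        · rw [Function.update_of_ne h]; exact hξ a)
      rw [task18_det ξ c x hM, norm_mul] at h1
      by_contra hc
      push Not at hc
      nlinarith
    have h2 : MvPolynomial.eval x (f i) =
        ∑ c : I n k, (∑ b : I n k, (∏ j, x j ^ ((b.1 j : ℕ))) * (E ξ)⁻¹ b c) * U c i := by
      rw [hf2 i x]
      simp only [Matrix.mul_apply, Finset.sum_mul]
      rw [Finset.sum_comm]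
      apply Finset.sum_congr rfl
      intro c _
      apply Finset.sum_congr rfl
      intro b _
      ring
    rw [h2]
    calc ‖∑ c : I n k, (∑ b : I n k, (∏ j, x j ^ ((b.1 j : ℕ))) * (E ξ)⁻¹ b c) * U c i‖
        ≤ ∑ c : I n k, ‖(∑ b : I n k, (∏ j, x j ^ ((b.1 j : ℕ))) * (E ξ)⁻¹ b c) * U c i‖ :=
          norm_sum_le _ _
      _ ≤ ∑ c : I n k, (1:ℝ) := by
          apply Finset.sum_le_sum
          intro c _
          rw [norm_mul]
          have h3 := entry_norm_bound_of_unitary hU c i
          have h4 := hl c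
          exact mul_le_one₀ h4 (norm_nonneg _) h3
      _ = (Fintype.card (I n k) : ℝ) := by
          rw [Finset.sum_const, Finset.card_univ, nsmul_eq_mul, mul_one]
  · intro z
    have h1 : (Matrix.of fun a b : I n k => MvPolynomial.eval (z a) (f b)) =
        E z * ((E ξ)⁻¹ * U) := by
      ext a b
      rw [Matrix.of_apply, hf2 b (z a), Matrix.mul_apply]
      apply Finset.sum_congr rfl
      intro c _
      rw [mul_comm]
      rfl
    have h2 : ‖Matrix.det U‖ = 1 := CStarRing.norm_of_mem_unitary (Matrix.det_of_mem_unitary hU)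
    rw [h1, Matrix.det_mul, Matrix.det_mul, Matrix.det_nonsing_inv, Ring.inverse_eq_inv', norm_mul,
      norm_mul, h2, norm_inv, mul_one, mul_assoc, inv_mul_cancel₀ hpos.ne', mul_one]
  · intro i g hg hgU x
    obtain ⟨c, hc⟩ := (h17 n k).1 g hg
    have h1 : (E ξ) *ᵥ c = fun a => U a i := by
      funext a
      rw [← hgU a, hc (ξ a), Matrix.mulVec, dotProduct]
      apply Finset.sum_congr rfl
      intro b _
      rw [mul_comm]
      rfl
    have h2 : c = fun b => ((E ξ)⁻¹ * U) b i := by
      have h3 : (E ξ)⁻¹ *ᵥ ((E ξ) *ᵥ c) = c := by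
        rw [Matrix.mulVec_mulVec, Matrix.nonsing_inv_mul _ hu, Matrix.one_mulVec]
      rw [← h3, h1]
      rfl
    rw [hc x, hf2 i x, h2]

end H716BM
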