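import Pool.Agent.H716BM.Stmts2

/-! Project H716-BM, task 19 (helper214). -/

set_option autoImplicit false

namespace H716BM

/-- coefficients of `q` to the values of `p q` at the points `ξ a` -/
noncomputable def t19Φ {n k m : ℕ} (p : MvPolynomial (Fin n) ℂ) (ξ : I n (k + m) → (Fin n → ℂ)) :
    (I n m → ℂ) →ₗ[ℂ] (I n (k + m) → ℂ) where
  toFun c a := MvPolynomial.eval (ξ a) p * ∑ b : I n m, c b * ∏ i, ξ a i ^ ((b.1 i : ℕ))
  map_add' c d := by
    funext a
    simp only [Pi.add_apply, add_mul, Finset.sum_add_distrib, mul_add]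
  map_smul' r c := by
    funext a
    simp only [Pi.smul_apply, smul_eq_mul, RingHom.id_apply, mul_assoc, ← Finset.mul_sum]
    ring

theorem t19Φ_apply {n k m : ℕ} (p : MvPolynomial (Fin n) ℂ) (ξ : I n (k + m) → (Fin n → ℂ))
    (c : I n m → ℂ) (a : I n (k + m)) :
    t19Φ p ξ c a = MvPolynomial.eval (ξ a) p * ∑ b : I n m, c b * ∏ i, ξ a i ^ ((b.1 i : ℕ)) := rfl

theorem task19 : T17 → T19 := by
  classical
  intro h17 n k m p ξ hp hpk hdet
  have hinj : Function.Injective (t19Φ (m := m) p ξ) := by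
    rw [← LinearMap.ker_eq_bot, LinearMap.ker_eq_bot']
    intro c hc
    obtain ⟨q, hqm, hq, hq0⟩ := (h17 n m).2 c
    have hdeg : (p * q).totalDegree ≤ k + m :=
      (MvPolynomial.totalDegree_mul p q).trans (Nat.add_le_add hpk hqm)
    obtain ⟨d, hd⟩ := (h17 n (k + m)).1 (p * q) hdeg
    have hmv : (E ξ).mulVec d = 0 := by
      funext a
      have h1 := hd (ξ a)
      have h2 : t19Φ p ξ c a = 0 := by rw [hc]; rfl
      rw [t19Φ_apply, ← hq (ξ a), ← map_mul, h1] at h2
      simp only [Matrix.mulVec, dotProduct, E, Matrix.of_apply, Pi.zero_apply]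
      rw [← h2]
      exact Finset.sum_congr rfl fun b _ => mul_comm _ _
    have hd0 : d = 0 := Matrix.eq_zero_of_mulVec_eq_zero hdet hmv
    have hpq : p * q = 0 := by
      apply MvPolynomial.funext
      intro x
      rw [hd x, hd0]
      simp
    rcases mul_eq_zero.1 hpq with h | h
    · exact absurd h hp
    · exact hq0 h
  refine ⟨LinearMap.range (t19Φ (m := m) p ξ), ?_, ?_⟩
  · rw [LinearMap.finrank_range_of_inj hinj, Module.finrank_fintype_fun_eq_card]
  · rintro w ⟨c, rfl⟩
    obtain ⟨q, hqm, hq, _⟩ := (h17 n m).2 c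
    exact ⟨q, hqm, fun a => by rw [t19Φ_apply, hq]⟩

end H716BM
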