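import Pool.Agent.H716BM.Stmts

/-! Task 2: Cauchy estimate for polynomials on the torus. -/

set_option autoImplicit false

open Finset

namespace H716BM

/-- The geometric sum over a full set of exponents. -/
theorem task2_geom (N : ℕ) (ζ : ℂ) (hζ : IsPrimitiveRoot ζ N) (a b : ℕ) (ha : a < N)
    (hb : b < N) :
    ∑ j : Fin N, (ζ ^ (b + (N - a))) ^ (j : ℕ) = if b = a then (N : ℂ) else 0 := by
  split_ifs with h
  · subst h
    have : b + (N - b) = N := by omega
    rw [this, hζ.pow_eq_one]
    simp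
  · have hne : ζ ^ (b + (N - a)) ≠ 1 := by
      intro h1
      have hd := (hζ.pow_eq_one_iff_dvd _).mp h1
      rcases Nat.lt_or_ge b a with hlt | hge
      · have h2 := Nat.le_of_dvd (by omega) hd
        omega
      · have h3 : b + (N - a) = (b - a) + N := by omega
        rw [h3] at hd
        have h4 : N ∣ b - a := (Nat.dvd_add_left (dvd_refl N)).mp hd
        have h5 := Nat.le_of_dvd (by omega) h4
        omega
    have hpow : (ζ ^ (b + (N - a))) ^ N = 1 := by
      rw [← pow_mul, mul_comm, pow_mul, hζ.pow_eq_one, one_pow]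
    have hg := geom_sum_eq hne N
    rw [Fin.sum_univ_eq_sum_range (fun j => (ζ ^ (b + (N - a))) ^ j) N, hg, hpow]
    simp

theorem task2 : T2 := by
  intro n p α M h
  by_cases hα : α ∈ p.support
  swap
  · rw [MvPolynomial.notMem_support_iff.mp hα, norm_zero]
    exact (norm_nonneg _).trans (h (fun _ => 1) (by simp))
  have hle : ∀ β ∈ p.support, ∀ i, β i < p.totalDegree + 1 := by
    intro β hβ i
    have h1 := MvPolynomial.le_totalDegree hβ
    have h2 : β i ≤ β.sum fun _ e => e := by
      rw [Finsupp.sum_fintype _ _ (fun _ => rfl)]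
      exact Finset.single_le_sum (f := fun i => β i) (fun _ _ => Nat.zero_le _) (Finset.mem_univ i)
    omega
  generalize hNdef : p.totalDegree + 1 = N at hle
  have hN : 0 < N := by omega
  obtain ⟨ζ, hζ⟩ : ∃ ζ : ℂ, IsPrimitiveRoot ζ N := ⟨_, Complex.isPrimitiveRoot_exp N hN.ne'⟩
  have hζn : ‖ζ‖ = 1 := hζ.norm'_eq_one hN.ne'
  have key : ∑ k : Fin n → Fin N, MvPolynomial.eval (fun i => ζ ^ (k i : ℕ)) p *
      ∏ i, (ζ ^ (k i : ℕ)) ^ (N - α i) = (N : ℂ) ^ n * p.coeff α := by
    have step : ∀ k : Fin n → Fin N, MvPolynomial.eval (fun i => ζ ^ (k i : ℕ)) p *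
        ∏ i, (ζ ^ (k i : ℕ)) ^ (N - α i) =
        ∑ β ∈ p.support, p.coeff β * ∏ i, (ζ ^ (β i + (N - α i))) ^ (k i : ℕ) := by
      intro k
      rw [MvPolynomial.eval_eq', Finset.sum_mul]
      refine Finset.sum_congr rfl fun β _ => ?_
      rw [mul_assoc, ← Finset.prod_mul_distrib]
      congr 1
      refine Finset.prod_congr rfl fun i _ => ?_
      rw [← pow_add, ← pow_mul, ← pow_mul, mul_comm]
    rw [Finset.sum_congr rfl fun k _ => step k, Finset.sum_comm]
    have inner : ∀ β ∈ p.support, ∑ k : Fin n → Fin N,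
        p.coeff β * ∏ i, (ζ ^ (β i + (N - α i))) ^ (k i : ℕ) =
        if β = α then (N : ℂ) ^ n * p.coeff α else 0 := by
      intro β hβ
      rw [← Finset.mul_sum]
      have hp : ∑ k : Fin n → Fin N, ∏ i, (ζ ^ (β i + (N - α i))) ^ (k i : ℕ) =
          ∏ i, ∑ j : Fin N, (ζ ^ (β i + (N - α i))) ^ (j : ℕ) := by
        rw [Finset.prod_univ_sum, Fintype.piFinset_univ]
      rw [hp, Finset.prod_congr rfl fun i _ =>
        task2_geom N ζ hζ (α i) (β i) (hle α hα i) (hle β hβ i)]
      split_ifs with hab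
      · subst hab
        simp [mul_comm]
      · obtain ⟨i, hi⟩ : ∃ i, β i ≠ α i := by
          by_contra hc
          push Not at hc
          exact hab (Finsupp.ext hc)
        rw [Finset.prod_eq_zero (Finset.mem_univ i) (by simp [hi]), mul_zero]
    rw [Finset.sum_congr rfl inner, Finset.sum_ite_eq' p.support α, if_pos hα]
  have hb : ‖(N : ℂ) ^ n * p.coeff α‖ ≤ (N : ℝ) ^ n * M := by
    rw [← key]
    refine (norm_sum_le _ _).trans ?_
    have : ∀ k ∈ (Finset.univ : Finset (Fin n → Fin N)),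
        ‖MvPolynomial.eval (fun i => ζ ^ (k i : ℕ)) p * ∏ i, (ζ ^ (k i : ℕ)) ^ (N - α i)‖ ≤ M := by
      intro k _
      rw [norm_mul, norm_prod]
      simp only [norm_pow, hζn, one_pow, Finset.prod_const_one, mul_one]
      exact h _ (by intro i; simp [hζn])
    refine (Finset.sum_le_card_nsmul _ _ _ this).trans ?_
    simp
  rw [norm_mul, norm_pow, Complex.norm_natCast] at hb
  have hpos : (0 : ℝ) < (N : ℝ) ^ n := by positivity
  exact le_of_mul_le_mul_left hb hpos

end H716BM
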