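import Pool.Agent.H716BM.Stmts2

/-! # Task20 (helper192): the core inequality -/

set_option autoImplicit false

open MeasureTheory Filter Topology

namespace H716BM

theorem task20_ae {n : ℕ} {K : Set (Fin n → ℂ)} {ν : Measure (Fin n → ℂ)} (hν : ν Kᶜ = 0) :
    ∀ᵐ x ∂ν, x ∈ K := by
  rw [ae_iff]; exact hν

theorem task20_cont {n : ℕ} (p : MvPolynomial (Fin n) ℂ) :
    Continuous (fun x : Fin n → ℂ => MvPolynomial.eval x p) := MvPolynomial.continuous_eval p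

theorem task20_int {n : ℕ} {K : Set (Fin n → ℂ)} {ν : Measure (Fin n → ℂ)} [IsFiniteMeasure ν]
    (hν : ν Kᶜ = 0) (p : MvPolynomial (Fin n) ℂ) (B : ℝ)
    (hB : ∀ x ∈ K, ‖MvPolynomial.eval x p‖ ≤ B) :
    Integrable (fun x => ‖MvPolynomial.eval x p‖ ^ 2) ν := by
  refine Integrable.of_bound ((task20_cont p).norm.pow 2).aestronglyMeasurable (B ^ 2) ?_
  filter_upwards [task20_ae hν] with x hx
  rw [Real.norm_of_nonneg (by positivity)]
  exact pow_le_pow_left₀ (norm_nonneg _) (hB x hx) 2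

theorem task20 : T1 → T8 → T10 → T17 → T18 → T19 → T15 := by
  intro h1 h8 h10 _ h18 h19 n K ν _ η r D ω k m p a ξ hK hν hη hr hD hω hBW hdiam hp ha hmax hpa
    hint hξK hξmax hdet
  have hp0 : p ≠ 0 := by
    rintro rfl
    simp at hpa
  have hdet0 : Matrix.det (E ξ) ≠ 0 := norm_pos_iff.mp hdet
  obtain ⟨W, hWrank, hW⟩ := h19 n k m p ξ hp0 hp hdet0
  obtain ⟨U, S, hU, hScard, hSW⟩ := h10 (I n (k + m)) W
  obtain ⟨f, hfdeg, hfK, hfdet, hfuniq⟩ := h18 n (k + m) K ξ U hU hξK hξmax hdet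
  set N : ℕ := Fintype.card (I n (k + m)) with hN
  set c : ℝ := (ν Set.univ).toReal + 1 with hc
  set Ω : ℝ := ω * Real.exp (2 * η * (k + m)) * (1 + D / r) ^ (2 * m) with hΩ
  have hc1 : 1 ≤ c := by
    have : 0 ≤ (ν Set.univ).toReal := ENNReal.toReal_nonneg
    linarith
  have hΩ0 : 0 ≤ Ω := by
    have : 0 ≤ D / r := by positivity
    positivity
  -- integrals
  have hfint : ∀ i, Integrable (fun x => ‖MvPolynomial.eval x (f i)‖ ^ 2) ν := fun i =>
    task20_int hν (f i) N (hfK i)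
  have hJ0 : ∀ i, 0 ≤ ∫ x, ‖MvPolynomial.eval x (f i)‖ ^ 2 ∂ν := fun i =>
    integral_nonneg (fun x => by positivity)
  have hJ1 : ∀ i, ∫ x, ‖MvPolynomial.eval x (f i)‖ ^ 2 ∂ν ≤ (N : ℝ) ^ 2 * c := by
    intro i
    calc ∫ x, ‖MvPolynomial.eval x (f i)‖ ^ 2 ∂ν ≤ ∫ _x, (N : ℝ) ^ 2 ∂ν := by
          refine integral_mono_ae (hfint i) (integrable_const _) ?_
          filter_upwards [task20_ae hν] with x hx
          exact pow_le_pow_left₀ (norm_nonneg _) (hfK i x hx) 2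
      _ = (ν Set.univ).toReal * (N : ℝ) ^ 2 := by
          rw [integral_const, smul_eq_mul]; rfl
      _ ≤ (N : ℝ) ^ 2 * c := by
          rw [hc]
          nlinarith [sq_nonneg (N : ℝ)]
  have hJ2 : ∀ i ∈ S, ∫ x, ‖MvPolynomial.eval x (f i)‖ ^ 2 ∂ν ≤ (N : ℝ) ^ 2 * Ω := by
    intro i hi
    obtain ⟨q, hqdeg, hq⟩ := hW _ (hSW i hi)
    have hpq : ∀ x : Fin n → ℂ, MvPolynomial.eval x p * MvPolynomial.eval x q
        = MvPolynomial.eval x (f i) := by
      intro x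
      rw [← hfuniq i (p * q) ((MvPolynomial.totalDegree_mul p q).trans (by omega)) ?_ x]
      · simp
      · intro a'
        rw [map_mul]
        exact (hq a').symm
    obtain ⟨b, hbK, hb⟩ := hK.exists_isMaxOn ⟨a, ha⟩ (task20_cont q).norm.continuousOn
    have hb' : ∀ x ∈ K, ‖MvPolynomial.eval x q‖ ≤ ‖MvPolynomial.eval b q‖ := fun x hx => hb hx
    obtain ⟨z, hza, hz⟩ := h1 n p q m hqdeg a b r D hr hD (hdiam a ha b hbK)
    have hfz : ‖MvPolynomial.eval z (f i)‖ ≤ Real.exp (η * ((k + m : ℕ) : ℝ)) * N :=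
      hBW (k + m) (f i) (hfdeg i) N (hfK i) z ⟨a, ha, hza⟩
    have hz' : ‖MvPolynomial.eval a p‖ * ‖MvPolynomial.eval b q‖ ≤
        (1 + D / r) ^ m * (Real.exp (η * ((k + m : ℕ) : ℝ)) * N) := by
      refine hz.trans (mul_le_mul_of_nonneg_left ?_ (by positivity))
      rw [← norm_mul, hpq z]
      exact hfz
    have hpint := task20_int hν p _ hmax
    calc ∫ x, ‖MvPolynomial.eval x (f i)‖ ^ 2 ∂ν
        ≤ ∫ x, ‖MvPolynomial.eval b q‖ ^ 2 * ‖MvPolynomial.eval x p‖ ^ 2 ∂ν := by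
          refine integral_mono_ae (hfint i) (hpint.const_mul _) ?_
          filter_upwards [task20_ae hν] with x hx
          rw [← hpq x, norm_mul, mul_pow, mul_comm]
          exact mul_le_mul_of_nonneg_right (pow_le_pow_left₀ (norm_nonneg _) (hb' x hx) 2)
            (by positivity)
      _ = ‖MvPolynomial.eval b q‖ ^ 2 * ∫ x, ‖MvPolynomial.eval x p‖ ^ 2 ∂ν :=
          integral_const_mul _ _
      _ ≤ ‖MvPolynomial.eval b q‖ ^ 2 * (ω * ‖MvPolynomial.eval a p‖ ^ 2) :=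
          mul_le_mul_of_nonneg_left hint (by positivity)
      _ = ω * (‖MvPolynomial.eval a p‖ * ‖MvPolynomial.eval b q‖) ^ 2 := by ring
      _ ≤ ω * ((1 + D / r) ^ m * (Real.exp (η * ((k + m : ℕ) : ℝ)) * N)) ^ 2 :=
          mul_le_mul_of_nonneg_left (pow_le_pow_left₀ (by positivity) hz' 2) hω
      _ = (N : ℝ) ^ 2 * Ω := by
          have e1 : Real.exp (2 * η * (k + m)) = Real.exp (η * ((k + m : ℕ) : ℝ)) ^ 2 := by
            rw [← Real.exp_nat_mul]
            congr 1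
            push_cast
            ring
          rw [hΩ, e1]
          ring
  have hN0 : (0:ℝ) ≤ (N:ℝ)^2 := by positivity
  have hJ : ∀ i, ∫ x, ‖MvPolynomial.eval x (f i)‖ ^ 2 ∂ν ≤
      ((N : ℝ) ^ 2 * c) * (if i ∈ S then Ω else 1) := by
    intro i
    by_cases hi : i ∈ S
    · rw [if_pos hi]
      refine (hJ2 i hi).trans ?_
      calc (N : ℝ) ^ 2 * Ω = ((N : ℝ) ^ 2 * 1) * Ω := by ring
        _ ≤ ((N : ℝ) ^ 2 * c) * Ω := by gcongr
    · rw [if_neg hi, mul_one]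
      exact hJ1 i
  have hprod : ∏ i, ∫ x, ‖MvPolynomial.eval x (f i)‖ ^ 2 ∂ν ≤
      ((N : ℝ) ^ 2 * c) ^ N * Ω ^ (Fintype.card (I n m)) := by
    calc ∏ i, ∫ x, ‖MvPolynomial.eval x (f i)‖ ^ 2 ∂ν
        ≤ ∏ i, ((N : ℝ) ^ 2 * c) * (if i ∈ S then Ω else 1) :=
          Finset.prod_le_prod (fun i _ => hJ0 i) (fun i _ => hJ i)
      _ = ((N : ℝ) ^ 2 * c) ^ N * Ω ^ (Fintype.card (I n m)) := by
          rw [Finset.prod_mul_distrib, Finset.prod_const, Finset.card_univ, ← hN,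
            Finset.prod_ite_mem, Finset.univ_inter, Finset.prod_const, hScard, hWrank]
  -- the integral of the determinant
  have h8' := h8 (I n (k + m)) (Fin n → ℂ) ν (fun i x => MvPolynomial.eval x (f i))
    (fun i => (task20_cont (f i)).aestronglyMeasurable) hfint
  have hZ : ZZ n (k + m) ν = ‖Matrix.det (E ξ)‖ ^ 2 *
      ∫ x, ‖Matrix.det (Matrix.of fun a b : I n (k + m) => MvPolynomial.eval (x a) (f b))‖ ^ 2
        ∂(Measure.pi fun _ : I n (k + m) => ν) := by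
    unfold ZZ
    rw [← integral_const_mul]
    congr 1
    funext z
    rw [← hfdet z]
    ring
  rw [hZ]
  calc ‖Matrix.det (E ξ)‖ ^ 2 *
      ∫ x, ‖Matrix.det (Matrix.of fun a b : I n (k + m) => MvPolynomial.eval (x a) (f b))‖ ^ 2
        ∂(Measure.pi fun _ : I n (k + m) => ν)
      ≤ ‖Matrix.det (E ξ)‖ ^ 2 * (((N.factorial : ℝ)) ^ 2 *
        ∏ i, ∫ x, ‖MvPolynomial.eval x (f i)‖ ^ 2 ∂ν) :=
        mul_le_mul_of_nonneg_left h8' (by positivity)
    _ ≤ ‖Matrix.det (E ξ)‖ ^ 2 * (((N.factorial : ℝ)) ^ 2 *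
        (((N : ℝ) ^ 2 * c) ^ N * Ω ^ (Fintype.card (I n m)))) := by
        gcongr
    _ = _ := by ring

end H716BM
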