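import Mathlib
import Pool.Agent.H716BM.Stmts

/-! Bernstein-Walsh estimates from the continuity of the extremal function. -/

set_option autoImplicit false

open MeasureTheory Filter Topology

namespace H716BM

theorem t3_key {n : ℕ} {K : Set (Fin n → ℂ)} {V : (Fin n → ℂ) → ℝ} (hne : K.Nonempty)
    (hV : Reg K V) (k : ℕ) (p : MvPolynomial (Fin n) ℂ) (hp : p.totalDegree ≤ k) (M : ℝ)
    (hM : ∀ x ∈ K, ‖MvPolynomial.eval x p‖ ≤ M) (z : Fin n → ℂ) (η : ℝ) (hη : V z ≤ η) :
    ‖MvPolynomial.eval z p‖ ≤ Real.exp (η * k) * M := by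
  obtain ⟨x0, hx0⟩ := hne
  have hM0 : 0 ≤ M := (norm_nonneg _).trans (hM x0 hx0)
  rcases Nat.eq_zero_or_pos k with hk | hk
  · subst hk
    have h0 : p.totalDegree = 0 := Nat.le_zero.mp hp
    rw [MvPolynomial.totalDegree_eq_zero_iff_eq_C] at h0
    have h1 := hM x0 hx0
    rw [h0] at h1 ⊢
    rw [MvPolynomial.eval_C] at h1 ⊢
    simpa using h1
  · by_cases hz : MvPolynomial.eval z p = 0
    · rw [hz, norm_zero]
      positivity
    · have hzp : 0 < ‖MvPolynomial.eval z p‖ := norm_pos_iff.mpr hz
      have hkr : (0 : ℝ) < (k : ℝ) := by exact_mod_cast hk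
      have hstep : ∀ M' : ℝ, 0 < M' → M ≤ M' →
          ‖MvPolynomial.eval z p‖ ≤ Real.exp (η * k) * M' := by
        intro M' hM' hMM
        have h1 : Real.log ‖MvPolynomial.eval z (MvPolynomial.C ((M' : ℂ)⁻¹) * p)‖ / (k : ℝ)
            ≤ V z := by
          refine (hV.2 z).1 ⟨k, hk, MvPolynomial.C ((M' : ℂ)⁻¹) * p, ?_, ?_, rfl⟩
          · refine (MvPolynomial.totalDegree_mul _ _).trans ?_
            rw [MvPolynomial.totalDegree_C, zero_add]
            exact hp
          · intro x hx
            rw [map_mul, MvPolynomial.eval_C, norm_mul, norm_inv, Complex.norm_real,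
              Real.norm_eq_abs, abs_of_pos hM', inv_mul_le_iff₀ hM', mul_one]
            exact (hM x hx).trans hMM
        have h2 := h1.trans hη
        rw [map_mul, MvPolynomial.eval_C, norm_mul, norm_inv, Complex.norm_real,
          Real.norm_eq_abs, abs_of_pos hM', div_le_iff₀ hkr,
          Real.log_le_iff_le_exp (by positivity), inv_mul_le_iff₀ hM'] at h2
        rw [mul_comm]
        exact h2
      refine le_of_forall_pos_le_add (fun δ hδ => ?_)
      have he : 0 < Real.exp (η * k) := Real.exp_pos _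
      have h3 := hstep (M + δ / Real.exp (η * k)) (by positivity)
        (by have : 0 ≤ δ / Real.exp (η * k) := by positivity
            linarith)
      rw [mul_add, mul_div_cancel₀ _ he.ne'] at h3
      exact h3

theorem task3 : T3 := by
  intro n K V hK hne hV
  have hV0 : ∀ z ∈ K, V z ≤ 0 := by
    intro z hz
    refine (hV.2 z).2 ?_
    rintro t ⟨k, hk, p, hp, hp1, rfl⟩
    exact div_nonpos_of_nonpos_of_nonneg (Real.log_nonpos (norm_nonneg _) (hp1 z hz))
      (Nat.cast_nonneg _)
  refine ⟨fun η hη => ?_, ?_⟩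
  · obtain ⟨r, hr, hsub⟩ := hK.exists_cthickening_subset_open
      (isOpen_lt hV.1 continuous_const : IsOpen {z | V z < η})
      (fun z hz => lt_of_le_of_lt (hV0 z hz) hη)
    refine ⟨r, hr, fun k p hp M hM z hz => ?_⟩
    obtain ⟨x, hx, hd⟩ := hz
    have hz' : z ∈ {z | V z < η} := hsub (Metric.mem_cthickening_of_dist_le z x r K hx hd)
    exact t3_key hne hV k p hp M hM z η (le_of_lt hz')
  · obtain ⟨B, hB⟩ := (isCompact_closedBall (0 : Fin n → ℂ) 1).exists_bound_of_continuousOn
      hV.1.continuousOn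
    refine ⟨max 0 B, le_max_left _ _, fun k p hp M hM z hz => ?_⟩
    have hz' : z ∈ Metric.closedBall (0 : Fin n → ℂ) 1 := by
      rw [mem_closedBall_zero_iff, pi_norm_le_iff_of_nonneg zero_le_one]
      exact hz
    refine t3_key hne hV k p hp M hM z _ ?_
    exact ((le_abs_self _).trans (hB z hz')).trans (le_max_right _ _)

end H716BM
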