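import Pool.Agent.H716BM.Stmts

set_option autoImplicit false

namespace H716BM

namespace Seven

lemma card_le (n k : ℕ) : Fintype.card (I n k) ≤ (k + 1) ^ n := by
  have h := Fintype.card_subtype_le (fun α : Fin n → Fin (k+1) => ∑ i, (α i : ℕ) ≤ k)
  simpa using h

lemma one_le_card (n k : ℕ) : 1 ≤ Fintype.card (I n k) := by
  rw [Nat.one_le_iff_ne_zero]
  have : Nonempty (I n k) := ⟨⟨fun _ => 0, by simp⟩⟩
  exact Fintype.card_ne_zero

lemma ll_eq (n k : ℕ) : ll n k = ((∑ a : I n k, ∑ i, (a.1 i : ℕ) : ℕ) : ℝ) := by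
  unfold ll
  push_cast
  rfl

lemma ll_le (n k : ℕ) : ll n k ≤ k * Fintype.card (I n k) := by
  rw [ll_eq]
  have h : (∑ a : I n k, ∑ i, (a.1 i : ℕ)) ≤ k * Fintype.card (I n k) := by
    calc (∑ a : I n k, ∑ i, (a.1 i : ℕ)) ≤ ∑ _a : I n k, k :=
          Finset.sum_le_sum (fun a _ => a.2)
      _ = k * Fintype.card (I n k) := by simp [mul_comm]
  exact_mod_cast h

/-- the involution -/
def inv0 (n k : ℕ) (a : I (n + 1) k) : I (n + 1) k :=
  ⟨Function.update a.1 0 ⟨k - ∑ i, (a.1 i : ℕ), by omega⟩, by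
    have h := a.2
    rw [Fin.sum_univ_succ] at h ⊢
    simp only [Function.update_self, ne_eq, Fin.succ_ne_zero, not_false_eq_true,
      Function.update_of_ne]
    rw [Fin.sum_univ_succ]
    omega⟩

lemma inv0_zero (n k : ℕ) (a : I (n + 1) k) :
    (((inv0 n k a).1 0 : Fin (k+1)) : ℕ) = k - ∑ i, (a.1 i : ℕ) := by
  simp [inv0]

lemma inv0_succ (n k : ℕ) (a : I (n + 1) k) (i : Fin n) :
    (inv0 n k a).1 i.succ = a.1 i.succ := by
  simp [inv0, Function.update_of_ne (Fin.succ_ne_zero i)]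

lemma inv0_inv (n k : ℕ) : Function.Involutive (inv0 n k) := by
  intro a
  apply Subtype.ext
  funext i
  refine Fin.cases ?_ (fun j => ?_) i
  · apply Fin.ext
    rw [inv0_zero, Fin.sum_univ_succ, inv0_zero]
    have h2 : (∑ i : Fin n, (((inv0 n k a).1 i.succ : Fin (k+1)) : ℕ))
        = ∑ i : Fin n, ((a.1 i.succ : Fin (k+1)) : ℕ) :=
      Finset.sum_congr rfl (fun i _ => by rw [inv0_succ])
    rw [h2]
    have h := a.2
    rw [Fin.sum_univ_succ] at h ⊢
    omega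
  · rw [inv0_succ, inv0_succ]

lemma le_two_ll (n k : ℕ) (hn : 1 ≤ n) : (k : ℝ) * Fintype.card (I n k) ≤ 2 * ll n k := by
  obtain ⟨n, rfl⟩ : ∃ m, n = m + 1 := ⟨n - 1, by omega⟩
  rw [ll_eq]
  have h1 : (∑ a : I (n+1) k, (k - ∑ i, (a.1 i : ℕ)))
      = ∑ a : I (n+1) k, ((a.1 0 : Fin (k+1)) : ℕ) := by
    have := Equiv.sum_comp (Function.Involutive.toPerm (inv0 n k) (inv0_inv n k))
      (fun a : I (n+1) k => ((a.1 0 : Fin (k+1)) : ℕ))
    rw [← this]
    apply Finset.sum_congr rfl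
    intro a _
    show _ = (((inv0 n k a).1 0 : Fin (k+1)) : ℕ)
    rw [inv0_zero]
  have h2 : (∑ a : I (n+1) k, ((a.1 0 : Fin (k+1)) : ℕ)) ≤ ∑ a : I (n+1) k, ∑ i, (a.1 i : ℕ) := by
    apply Finset.sum_le_sum
    intro a _
    exact Finset.single_le_sum (f := fun i => ((a.1 i : Fin (k+1)) : ℕ)) (fun i _ => Nat.zero_le _)
      (Finset.mem_univ 0)
  have h3 : k * Fintype.card (I (n+1) k)
      = (∑ a : I (n+1) k, (k - ∑ i, (a.1 i : ℕ))) + ∑ a : I (n+1) k, ∑ i, (a.1 i : ℕ) := by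
    rw [← Finset.sum_add_distrib]
    have : ∀ a ∈ (Finset.univ : Finset (I (n+1) k)),
        (k - ∑ i, (a.1 i : ℕ)) + ∑ i, (a.1 i : ℕ) = k := by
      intro a _
      have := a.2
      omega
    rw [Finset.sum_congr rfl this]
    simp [mul_comm]
  have h4 : k * Fintype.card (I (n+1) k) ≤ 2 * ∑ a : I (n+1) k, ∑ i, (a.1 i : ℕ) := by
    rw [h3, h1]
    omega
  exact_mod_cast h4

lemma sum_div_le (n q : ℕ) (f : Fin n → ℕ) : q * ∑ i, f i / q ≤ ∑ i, f i := by
  rw [Finset.mul_sum]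
  exact Finset.sum_le_sum (fun i _ => Nat.mul_div_le (f i) q)

lemma card_div (n m k q : ℕ) (hq : 1 ≤ q) (hk : k ≤ q * m) :
    Fintype.card (I n k) ≤ q ^ n * Fintype.card (I n m) := by
  have hs : ∀ a : I n k, ∑ i, ((a.1 i : Fin (k+1)) : ℕ) / q ≤ m := by
    intro a
    have h1 := sum_div_le n q (fun i => ((a.1 i : Fin (k+1)) : ℕ))
    have h2 := a.2
    have h3 : q * (∑ i, ((a.1 i : Fin (k+1)) : ℕ) / q) ≤ q * m := h1.trans (h2.trans hk)
    exact Nat.le_of_mul_le_mul_left h3 (by omega)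
  have hi : ∀ (a : I n k) (i : Fin n), ((a.1 i : Fin (k+1)) : ℕ) / q < m + 1 := by
    intro a i
    have h1 : ((a.1 i : Fin (k+1)) : ℕ) / q ≤ ∑ i, ((a.1 i : Fin (k+1)) : ℕ) / q :=
      Finset.single_le_sum (f := fun i => ((a.1 i : Fin (k+1)) : ℕ) / q) (fun i _ => Nat.zero_le _)
        (Finset.mem_univ i)
    have := hs a
    omega
  let F : I n k → (Fin n → Fin q) × I n m := fun a =>
    (fun i => ⟨((a.1 i : Fin (k+1)) : ℕ) % q, Nat.mod_lt _ (by omega)⟩,
      ⟨fun i => ⟨((a.1 i : Fin (k+1)) : ℕ) / q, hi a i⟩, hs a⟩)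
  have hF : Function.Injective F := by
    intro a b hab
    apply Subtype.ext
    funext i
    apply Fin.ext
    have h1 := congrArg (fun x => ((x.1 i : Fin q) : ℕ)) hab
    have h2 := congrArg (fun x => ((x.2.1 i : Fin (m+1)) : ℕ)) hab
    simp only [F] at h1 h2
    rw [← Nat.div_add_mod ((a.1 i : Fin (k+1)) : ℕ) q, ← Nat.div_add_mod ((b.1 i : Fin (k+1)) : ℕ) q,
      h1, h2]
  have := Fintype.card_le_of_injective F hF
  simpa using this

lemma pow_le (n k : ℕ) (hn : 1 ≤ n) : (k : ℝ) ^ n ≤ (n : ℝ) ^ n * Fintype.card (I n k) := by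
  have hb : ∀ x : Fin (k / n + 1), (x : ℕ) < k + 1 := by
    intro x
    have := x.2
    have h2 : k / n ≤ k := Nat.div_le_self k n
    omega
  let F : (Fin n → Fin (k / n + 1)) → I n k := fun f =>
    ⟨fun i => ⟨(f i : ℕ), hb (f i)⟩, by
      calc ∑ i, (f i : ℕ) ≤ ∑ _i : Fin n, k / n :=
            Finset.sum_le_sum (fun i _ => by have := (f i).2; omega)
        _ = n * (k / n) := by simp
        _ ≤ k := Nat.mul_div_le k n⟩
  have hF : Function.Injective F := by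
    intro f g hfg
    funext i
    apply Fin.ext
    have h1 := congrArg (fun x => ((x.1 i : Fin (k+1)) : ℕ)) hfg
    simpa [F] using h1
  have h1 := Fintype.card_le_of_injective F hF
  have h2 : (k / n + 1) ^ n ≤ Fintype.card (I n k) := by simpa using h1
  have h3 : k ≤ n * (k / n + 1) := by
    have := Nat.lt_mul_div_succ k (show 0 < n by omega)
    exact this.le
  have h4 : k ^ n ≤ n ^ n * Fintype.card (I n k) :=
    calc k ^ n ≤ (n * (k / n + 1)) ^ n := Nat.pow_le_pow_left h3 n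
      _ = n ^ n * (k / n + 1) ^ n := by rw [Nat.mul_pow]
      _ ≤ n ^ n * Fintype.card (I n k) := Nat.mul_le_mul_left _ h2
  exact_mod_cast h4

end Seven

theorem task7 : T7 :=
  ⟨Seven.card_le, Seven.le_two_ll, Seven.ll_le, Seven.card_div, Seven.pow_le, Seven.one_le_card⟩

end H716BM
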