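import Pool.Agent.H716BM.Stmts

set_option autoImplicit false

open MeasureTheory Filter Topology

namespace H716BM

namespace Task9Aux

open scoped ENNReal

lemma ofReal_integral_le {α : Type*} [MeasurableSpace α] {μ : Measure α} {f : α → ℝ}
    (hf : ∀ x, 0 ≤ f x) (hm : AEStronglyMeasurable f μ) :
    ENNReal.ofReal (∫ x, f x ∂μ) ≤ ∫⁻ x, ENNReal.ofReal (f x) ∂μ := by
  rw [integral_eq_lintegral_of_nonneg_ae (Eventually.of_forall hf) hm]
  exact ENNReal.ofReal_toReal_le

lemma step {X : Type} [TopologicalSpace X] [MeasurableSpace X] [BorelSpace X]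
    [SecondCountableTopology X]
    {ι : Type} [Fintype ι] [DecidableEq ι] (K : Set X)
    (ν : Measure X) [IsFiniteMeasure ν] (F : (ι → X) → ℝ) (A : ℝ)
    (hK0 : ν Kᶜ = 0) (hF : Continuous F) (hF0 : ∀ x, 0 ≤ F x) (hA : 0 ≤ A)
    (h1 : ∀ x, (∀ a, x a ∈ K) → ∀ a, F x ≤ A * ∫ y, F (Function.update x a y) ∂ν)
    (s : Finset ι) :
    ∀ x, (∀ a, x a ∈ K) → ENNReal.ofReal (F x) ≤
      ENNReal.ofReal A ^ s.card * (∫⋯∫⁻_s, (fun z => ENNReal.ofReal (F z)) ∂(fun _ => ν)) x := by
  have hG : Measurable (fun z => ENNReal.ofReal (F z)) := hF.measurable.ennreal_ofReal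
  induction s using Finset.induction_on with
  | empty => intro x _; simp
  | insert i s hi ih =>
    intro x hx
    have e1 : ENNReal.ofReal (F x) ≤
        ENNReal.ofReal A * ∫⁻ y, ENNReal.ofReal (F (Function.update x i y)) ∂ν := by
      refine (ENNReal.ofReal_le_ofReal (h1 x hx i)).trans ?_
      rw [ENNReal.ofReal_mul hA]
      gcongr
      apply ofReal_integral_le (fun y => hF0 _)
      exact (hF.comp (continuous_const.update i continuous_id)).aestronglyMeasurable
    have hae : ∀ᵐ y ∂ν, y ∈ K := by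
      rw [ae_iff]; exact hK0
    have e2 : ∫⁻ y, ENNReal.ofReal (F (Function.update x i y)) ∂ν ≤
        ENNReal.ofReal A ^ s.card *
          ∫⁻ y, (∫⋯∫⁻_s, (fun z => ENNReal.ofReal (F z)) ∂(fun _ => ν))
            (Function.update x i y) ∂ν := by
      rw [← lintegral_const_mul' _ _ (ENNReal.pow_ne_top ENNReal.ofReal_ne_top)]
      apply lintegral_mono_ae
      filter_upwards [hae] with y hy
      apply ih
      intro a
      by_cases ha : a = i
      · subst ha; simpa using hy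
      · simpa [Function.update_of_ne ha] using hx a
    rw [lmarginal_insert _ hG hi, Finset.card_insert_of_notMem hi, pow_succ']
    calc ENNReal.ofReal (F x) ≤ _ := e1
      _ ≤ ENNReal.ofReal A * (ENNReal.ofReal A ^ s.card *
          ∫⁻ y, (∫⋯∫⁻_s, (fun z => ENNReal.ofReal (F z)) ∂(fun _ => ν))
            (Function.update x i y) ∂ν) := by gcongr
      _ = _ := by rw [mul_assoc]

end Task9Aux

theorem task9 : T9 := by
  intro n ι _ _ K ν _ F A hK hK0 hF hF0 hA h1 x hx
  have hs := Task9Aux.step K ν F A hK0 hF hF0 hA h1 Finset.univ x hx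
  rw [lmarginal_univ, Finset.card_univ] at hs
  have hae : ∀ᵐ z ∂(Measure.pi fun _ : ι => ν), ∀ i, z i ∈ K := by
    rw [ae_all_iff]
    intro i
    have hy : ∀ᵐ y ∂ν, y ∈ K := by
      rw [ae_iff]; exact hK0
    exact (Measure.tendsto_eval_ae_ae (μ := fun _ : ι => ν) (i := i)).eventually hy
  have hcomp : IsCompact (Set.pi Set.univ (fun _ : ι => K)) := isCompact_univ_pi (fun _ => hK)
  obtain ⟨C, hC⟩ : ∃ C : ℝ, ∀ z ∈ Set.pi Set.univ (fun _ : ι => K), F z ≤ C := by
    obtain ⟨C, hC⟩ := (hcomp.image hF).bddAbove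
    exact ⟨C, fun z hz => hC (Set.mem_image_of_mem F hz)⟩
  have hfin : ∫⁻ z, ENNReal.ofReal (F z) ∂(Measure.pi fun _ : ι => ν) ≠ ⊤ := by
    have hle : ∫⁻ z, ENNReal.ofReal (F z) ∂(Measure.pi fun _ : ι => ν) ≤
        ∫⁻ z, ENNReal.ofReal C ∂(Measure.pi fun _ : ι => ν) := by
      apply lintegral_mono_ae
      filter_upwards [hae] with z hz
      exact ENNReal.ofReal_le_ofReal (hC z (fun i _ => hz i))
    refine ne_top_of_le_ne_top ?_ hle
    rw [lintegral_const]
    exact ENNReal.mul_ne_top ENNReal.ofReal_ne_top (measure_ne_top _ _)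
  rw [integral_eq_lintegral_of_nonneg_ae (Eventually.of_forall hF0)
    hF.aestronglyMeasurable]
  have h2 := ENNReal.toReal_mono
    (ENNReal.mul_ne_top (ENNReal.pow_ne_top ENNReal.ofReal_ne_top) hfin) hs
  rw [ENNReal.toReal_ofReal (hF0 x), ENNReal.toReal_mul, ENNReal.toReal_pow,
    ENNReal.toReal_ofReal hA] at h2
  exact h2

end H716BM
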